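import Mathlib

set_option autoImplicit false

namespace Pool.Agent.H.BS

open Equiv

variable {A : Type}

/-- fill the leaves of `g` with letters of `x` or with constants -/
def ev {L T : Type} (g : L → T ⊕ A) (x : T → A) : L → A := fun l => (g l).elim x id

def comp {L T U : Type} (g : L → T ⊕ A) (G : T → U ⊕ A) : L → U ⊕ A := fun l => (g l).elim G .inr

def sm {L T : Type} [Fintype L] (g : L → T ⊕ A) (φ : T → ℕ) : ℕ := ∑ l, (g l).elim φ 0

lemma ev_comp {L T U : Type} (g : L → T ⊕ A) (G : T → U ⊕ A) (x : U → A) :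
    ev (comp g G) x = ev g (ev G x) := by
  ext l; unfold ev comp; cases g l <;> rfl

lemma sm_comp {L T U : Type} [Fintype L] (g : L → T ⊕ A) (G : T → U ⊕ A) (φ : U → ℕ) :
    sm (comp g G) φ = sm g fun t => (G t).elim φ 0 := by
  refine Finset.sum_congr rfl fun l _ => ?_
  unfold comp; cases g l <;> rfl

def lt {S L : Type} (u : S × L → A) (s : S) : L → A := fun l => u (s, l)

def Pr {L : Type} (R : (L → A) → (L → A) → Prop) (x y : Bool × L → A) : Prop :=
  ∃ e : Bool, ∀ s, R (lt x s) (lt y (xor e s))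

lemma Pr.eqv {L : Type} {R : (L → A) → (L → A) → Prop} (h : Equivalence R) : Equivalence (Pr R) :=
  ⟨fun x => ⟨false, fun s => by simpa using h.refl _⟩,
    fun ⟨e, p⟩ => ⟨e, fun s => h.symm (by simpa [← Bool.xor_assoc] using p (xor e s))⟩,
    fun ⟨e, p⟩ ⟨f, q⟩ => ⟨xor f e, fun s => h.trans (p s) (by simpa [Bool.xor_assoc] using q (xor e s))⟩⟩

def Bal {L S L0 : Type} [Fintype L] [Fintype S] [Fintype L0] (g : L → S × L0 ⊕ A) (n : S → ℕ) : Prop :=
  ∀ φ, sm g φ = ∑ s, n s * ∑ l, φ (s, l)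

lemma Bal.comp {L S L0 S' L1 : Type} [Fintype L] [Fintype S] [Fintype L0] [Fintype S'] [Fintype L1]
    {g : L → S × L0 ⊕ A} {n : S → ℕ} (h : Bal g n) {G : S → L0 → S' × L1 ⊕ A} {m : S → S' → ℕ}
    (hG : ∀ s, Bal (G s) (m s)) : Bal (comp g fun p => G p.1 p.2) fun t => ∑ s, n s * m s t := by
  intro φ
  rw [sm_comp, h]
  simp only [Finset.sum_mul, mul_assoc]
  rw [Finset.sum_comm]
  exact Finset.sum_congr rfl fun s _ => by rw [← Finset.mul_sum, ← hG]; rfl

lemma bal_var {S L : Type} [Fintype S] [Fintype L] [DecidableEq S] (s : S) :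
    Bal (A := A) (fun l : L => .inl (s, l)) (Pi.single s 1) := fun φ => by
  simp [sm, Pi.single_apply]

lemma experm {m : ℕ} (σ : Perm (Fin (m + 1))) (k : Fin (m + 1)) :
    ∃ τ : Perm (Fin m), ∀ t, σ (k.succAbove t) = (σ k).succAbove (τ t) :=
  ⟨(finSuccAboveEquiv k).trans ((σ.subtypeEquiv (p := (· ≠ k)) (q := (· ≠ σ k))
    fun _ => σ.injective.ne_iff.symm).trans
    (finSuccAboveEquiv (σ k)).symm), fun t =>
    (congrArg Subtype.val ((finSuccAboveEquiv (σ k)).apply_symm_apply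
      ⟨σ (k.succAbove t), σ.injective.ne (k.succAbove_ne t)⟩)).symm⟩

abbrev Cls (A : Type) := ∀ (L : Type) [Fintype L], ((L → A) → (L → A) → Prop) → Prop

def Full (Φ : Cls A) (S : Type) [Fintype S] : Prop :=
  ∀ (L : Type) [Fintype L] (R : (L → A) → (L → A) → Prop), Equivalence R → Φ L R →
    ∃ (L' : Type) (_ : Fintype L') (R' : (L' → A) → (L' → A) → Prop) (g : L' → S × L ⊕ A)
      (n : S → ℕ), Equivalence R' ∧ Φ L' R' ∧ Bal g n ∧ (∃ s, 0 < n s) ∧
      ∀ w w' (σ : Perm S), (∀ s, R (lt w s) (lt w' (σ s))) → R' (ev g w) (ev g w')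

variable {Φ : Cls A}

lemma merge (hΦ : ∀ (L : Type) [Fintype L] R, Equivalence R → Φ L R → Φ (Bool × L) (Pr R)) {m : ℕ}
    (ih : Full Φ (Fin m)) {L : Type} [Fintype L] {R : (L → A) → (L → A) → Prop}
    (e : Equivalence R) (h : Φ L R) (u0 : Fin (m + 1) × L → A) {i j : Fin (m + 1)} (hij : j ≠ i) :
    ∃ (L' : Type) (_ : Fintype L') (R' : (L' → A) → (L' → A) → Prop)
      (G : Fin (m + 1) → L' → Fin (m + 1) × L ⊕ A) (n : Fin (m + 1) → Fin (m + 1) → ℕ),
      Equivalence R' ∧ Φ L' R' ∧ (∀ k, Bal (G k) (n k) ∧ ∃ s, 0 < n k s) ∧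
      (∀ u u' (σ : Perm (Fin (m + 1))), (∀ s, R (lt u s) (lt u' (σ s))) →
        ∀ k, R' (ev (G k) u) (ev (G (σ k)) u')) ∧ R' (ev (G i) u0) (ev (G j) u0) := by
  obtain ⟨L', _, R', g, n, e', h', hb, ⟨t1, hn⟩, hg⟩ := ih L R e h
  obtain ⟨t0, rfl⟩ := Fin.exists_succAbove_eq hij
  let P : Fin (m + 1) → Fin m → L → Fin (m + 1) × L ⊕ A := fun k t l => .inl (k.succAbove t, l)
  let N : Fin (m + 1) → Fin m → L → Fin (m + 1) × L ⊕ A := fun k t l =>
    if t = t0 then .inl (k, l) else .inr (u0 (i.succAbove t, l))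
  have bP := fun k => hb.comp (G := P k) fun t => bal_var (k.succAbove t)
  have bN := fun k => hb.comp (G := N k) (m := fun t => if t = t0 then Pi.single k 1 else 0) fun t => by
    by_cases c : t = t0
    · simpa [N, c] using bal_var k
    · intro φ; simp [N, c, sm]
  refine ⟨Bool × L', inferInstance, Pr R', fun k p => comp g (fun q => bif p.1 then N k q.1 q.2 else
    P k q.1 q.2) p.2, fun k t => ∑ s, n s * (if s = t0 then Pi.single k 1 else 0 : _ → ℕ) t +
    ∑ s, n s * (Pi.single (k.succAbove s) 1 : _ → ℕ) t, Pr.eqv e', hΦ _ _ e' h', fun k => ⟨fun φ => ?_, k.succAbove t1,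
    ?_⟩, fun u u' σ hσ k => ⟨false, fun s => ?_⟩, true, fun s => ?_⟩
  · simp only [add_mul, Finset.sum_add_distrib]
    rw [← bN k φ, ← bP k φ]
    simp [sm, Fintype.sum_prod_type]
  · refine Nat.add_pos_right _ (Finset.sum_pos' (fun _ _ => Nat.zero_le _) ⟨t1, by simp, ?_⟩)
    simpa using hn
  · cases s
    · obtain ⟨τ, hτ⟩ := experm σ k
      have := hg (ev (fun q => P k q.1 q.2) u) (ev (fun q => P (σ k) q.1 q.2) u') τ fun t => by
        have := hσ (k.succAbove t)
        rwa [hτ] at this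
      rwa [← ev_comp, ← ev_comp] at this
    · have := hg (ev (fun q => N k q.1 q.2) u) (ev (fun q => N (σ k) q.1 q.2) u') 1 fun t => by
        by_cases c : t = t0
        · convert hσ k using 1 <;> ext l <;> simp [lt, ev, N, c]
        · convert e.refl _ using 1; ext l; simp [lt, ev, N, c]
      rwa [← ev_comp, ← ev_comp] at this
  · cases s
    · have := hg (ev (fun q => P i q.1 q.2) u0) (ev (fun q => N (i.succAbove t0) q.1 q.2) u0) 1
        fun t => by
          convert e.refl _ using 1; ext l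
          by_cases c : t = t0 <;> simp [lt, ev, N, P, c]
      rwa [← ev_comp, ← ev_comp] at this
    · obtain ⟨τ, hτ⟩ := experm (swap i (i.succAbove t0)) i
      rw [swap_apply_left] at hτ
      have := hg (ev (fun q => N i q.1 q.2) u0) (ev (fun q => P (i.succAbove t0) q.1 q.2) u0) τ
        fun t => by
          convert e.refl _ using 1; ext l
          by_cases c : t = t0
          · simp [lt, ev, N, P, c, ← hτ]
          · simp [lt, ev, N, P, c, ← hτ, swap_apply_of_ne_of_ne]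
      rwa [← ev_comp, ← ev_comp] at this

lemma full_fin [Finite A]
    (hΦ : ∀ (L : Type) [Fintype L] R, Equivalence R → Φ L R → Φ (Bool × L) (Pr R)) (m : ℕ) :
    Full Φ (Fin (m + 1)) := by
  classical
  induction m with
  | zero =>
    intro L _ R e h
    exact ⟨L, inferInstance, R, fun l => .inl (0, l), _, e, h, bal_var 0, ⟨0, by simp⟩,
      fun w w' σ p => by
        have := p 0
        rwa [Fin.fin_one_eq_zero (σ 0)] at this⟩
  | succ m ih =>
    intro L _ R e h
    have : ∀ T : Finset ((Fin (m + 2) × L → A) × Fin (m + 2) × Fin (m + 2)),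
        ∃ (L' : Type) (_ : Fintype L') (R' : (L' → A) → (L' → A) → Prop)
        (G : Fin (m + 2) → L' → Fin (m + 2) × L ⊕ A) (n : Fin (m + 2) → Fin (m + 2) → ℕ),
        Equivalence R' ∧ Φ L' R' ∧ (∀ k, Bal (G k) (n k) ∧ ∃ s, 0 < n k s) ∧
        (∀ u u' (σ : Perm (Fin (m + 2))), (∀ s, R (lt u s) (lt u' (σ s))) →
          ∀ k, R' (ev (G k) u) (ev (G (σ k)) u')) ∧
        ∀ p ∈ T, R' (ev (G p.2.1) p.1) (ev (G p.2.2) p.1) := fun T => by
      induction T using Finset.induction_on with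
      | empty =>
        exact ⟨L, inferInstance, R, fun k l => .inl (k, l), _, e, h,
          fun k => ⟨bal_var k, k, by simp⟩, fun u u' σ p => p, by simp⟩
      | insert p T _ ihT =>
        obtain ⟨L1, _, R1, G, n, e1, h1, b1, c1, d1⟩ := ihT
        by_cases hp : p.2.2 = p.2.1
        · refine ⟨L1, inferInstance, R1, G, n, e1, h1, b1, c1, Finset.forall_mem_insert .. |>.2 ⟨?_, d1⟩⟩
          rw [hp]; exact e1.refl _
        obtain ⟨L2, _, R2, G2, n2, e2, h2, b2, c2, d2⟩ :=
          merge hΦ ih e1 h1 (ev (fun q => G q.1 q.2) p.1) hp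
        refine ⟨L2, inferInstance, R2, fun k => comp (G2 k) fun q => G q.1 q.2, _, e2, h2,
          fun k => ⟨(b2 k).1.comp fun s => (b1 s).1, ?_⟩, fun u u' σ hσ k => ?_,
          Finset.forall_mem_insert .. |>.2 ⟨?_, fun q hq => ?_⟩⟩
        · obtain ⟨s, hs⟩ := (b2 k).2
          obtain ⟨t, ht⟩ := (b1 s).2
          exact ⟨t, Finset.sum_pos' (fun _ _ => Nat.zero_le _) ⟨s, by simp, mul_pos hs ht⟩⟩
        · rw [ev_comp, ev_comp]; exact c2 _ _ σ (fun s => by exact c1 u u' σ hσ s) k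
        · rw [ev_comp, ev_comp]; exact d2
        · rw [ev_comp, ev_comp]
          have := c2 (ev (fun q => G q.1 q.2) q.1) (ev (fun q => G q.1 q.2) q.1) (swap q.2.1 q.2.2)
            (fun s => by
              rw [swap_apply_def]
              split_ifs with a b
              · exact a ▸ d1 q hq
              · exact b ▸ e1.symm (d1 q hq)
              · exact e1.refl _) q.2.1
          rwa [swap_apply_left] at this
    have _ := Fintype.ofFinite A
    obtain ⟨L1, _, R1, G, n, e1, h1, b1, c1, d1⟩ := this Finset.univ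
    exact ⟨L1, inferInstance, R1, G 0, n 0, e1, h1, (b1 0).1, (b1 0).2, fun w w' σ p =>
      e1.trans (c1 w w' σ p 0) (d1 (w', σ 0, 0) (Finset.mem_univ _))⟩

theorem full [Finite A]
    (hΦ : ∀ (L : Type) [Fintype L] R, Equivalence R → Φ L R → Φ (Bool × L) (Pr R)) (S : Type)
    [Fintype S] [Nonempty S] : Full Φ S := by
  classical
  obtain ⟨m, hm⟩ := Nat.exists_eq_succ_of_ne_zero (Fintype.card_ne_zero (α := S))
  let f := Fintype.equivFinOfCardEq hm
  intro L _ R e h
  obtain ⟨L', _, R', g, n, e', h', hb, ⟨s, hs⟩, hg⟩ := full_fin hΦ m L R e h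
  refine ⟨L', inferInstance, R', _, _, e', h', hb.comp fun t => bal_var (f.symm t), ⟨f.symm s,
    Finset.sum_pos' (fun _ _ => Nat.zero_le _) ⟨s, by simp, by simpa using hs⟩⟩, fun w w' σ p => ?_⟩
  rw [ev_comp, ev_comp]
  refine hg _ _ (f.permCongr σ) fun t => ?_
  convert p (f.symm t) using 1 <;> ext l <;> simp [lt, ev]

end Pool.Agent.H.BS
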