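import Pool.Agent.H.BS.A

set_option autoImplicit false

namespace Pool.Agent.H.BS

open Equiv

/-- every finite colouring of some real coordinate space has a copy of `F` with squared distances
`δ` on which `R`-related points get equal colours -/
def RI (F : Type) (δ : F → F → ℝ) (R : F → F → Prop) : Prop :=
  ∀ (C : Type) [Finite C], ∃ (N : Type) (_ : Fintype N), ∀ c : (N → ℝ) → C, ∃ f : F → N → ℝ,
    (∀ x y, ∑ n, (f x n - f y n) ^ 2 = δ x y) ∧ ∀ x y, R x y → c (f x) = c (f y)

variable {A F F' : Type} {δ : F → F → ℝ} {δ' : F' → F' → ℝ} {R : F → F → Prop}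
  {R' : F' → F' → Prop}

lemma RI.sub (h : RI F δ R) (G : F' → F) {k : ℝ} (hk : 0 < k)
    (h1 : ∀ x y, δ (G x) (G y) = k * δ' x y) (h2 : ∀ x y, R' x y → R (G x) (G y)) :
    RI F' δ' R' := fun C _ => by
  obtain ⟨N, _, hN⟩ := h C
  refine ⟨N, inferInstance, fun c => ?_⟩
  obtain ⟨f, a, b⟩ := hN fun v => c fun n => v n / √k
  refine ⟨fun x n => f (G x) n / √k, fun x y => ?_, fun x y r => b _ _ (h2 x y r)⟩
  simp only [← sub_div, div_pow, ← Finset.sum_div, a, h1, Real.sq_sqrt hk.le]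
  field_simp

lemma RI.fin [Finite F] (h : RI F δ R) (C : Type) [Finite C] :
    ∃ (N : Type) (_ : Fintype N) (Y : Finset (N → ℝ)), ∀ c : (N → ℝ) → C, ∃ f : F → N → ℝ,
      (∀ x, f x ∈ Y) ∧ (∀ x y, ∑ n, (f x n - f y n) ^ 2 = δ x y) ∧
        ∀ x y, R x y → c (f x) = c (f y) := by
  classical
  have _ := Fintype.ofFinite F
  obtain ⟨N, _, hN⟩ := h C
  refine ⟨N, inferInstance, ?_⟩
  by_contra! hc
  choose c hc using hc
  obtain ⟨χ, hχ⟩ := Finset.rado_selection c
  obtain ⟨f, a, b⟩ := hN χ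
  obtain ⟨t, h1, h2⟩ := hχ (Finset.univ.image f)
  obtain ⟨x, y, r, e⟩ := hc t f (fun x => h1 (by simp)) a
  exact e (by rw [← h2 _ (by simp), ← h2 _ (by simp)]; exact b x y r)

lemma RI.prod [Finite F] [Finite F'] (h : RI F δ R) (h' : RI F' δ' R') :
    RI (F × F') (fun x y => δ x.1 y.1 + δ' x.2 y.2) fun x y => R x.1 y.1 ∧ R' x.2 y.2 :=
  fun C _ => by
  obtain ⟨N, _, Y, hN⟩ := h.fin (F' → C)
  obtain ⟨M, _, hM⟩ := h' (Y → C)
  refine ⟨N ⊕ M, inferInstance, fun c => ?_⟩
  obtain ⟨g, a', b'⟩ := hM fun v u => c (Sum.elim u.1 v)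
  obtain ⟨f, m, a, b⟩ := hN fun u y => c (Sum.elim u (g y))
  exact ⟨fun x => Sum.elim (f x.1) (g x.2), fun x y => by simp [a, a'],
    fun x y r => (congrFun (b _ _ r.1) _).trans (congrFun (b' _ _ r.2) ⟨_, m _⟩)⟩

lemma RI.pow [Finite F] (h : RI F δ R) (J : Type) [Fintype J] :
    RI (J → F) (fun x y => ∑ s, δ (x s) (y s)) fun x y => ∀ s, R (x s) (y s) := by
  have : ∀ n, RI (Fin n → F) (fun x y => ∑ s, δ (x s) (y s)) fun x y => ∀ s, R (x s) (y s) :=
    fun n => by
    induction n with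
    | zero => exact fun C _ => ⟨Empty, inferInstance, fun c => ⟨0, by simp, by simp⟩⟩
    | succ n ih =>
      exact (h.prod ih).sub (fun x => (x 0, fun s => x s.succ)) one_pos
        (fun x y => by simp [Fin.sum_univ_succ]) fun x y r => ⟨r 0, fun s => r s.succ⟩
  let e := (Fintype.equivFin J).symm
  exact (this _).sub (fun x s => x (e s)) one_pos
    (fun x y => by simpa using e.sum_comp fun s => δ (x s) (y s)) fun x y r s => r _

lemma RI.swap [Finite F] (h : RI F δ R) (h0 : ∀ x, δ x x = 0) (b : F → F) (hb : ∀ l, b (b l) = l)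
    (hδ : ∀ x y, δ (b x) (b y) = δ x y) (r : ∀ x, R x x) (rb : ∀ x y, R x y → R (b x) (b y))
    (z : F) : RI F δ fun x y => R x y ∨ ((x = z ∨ b x = z) ∧ y = b x) := by
  refine RI.sub (δ := fun x y => 2 * δ x y) (R := fun x y => R x y ∨ ((x = z ∨ b x = z) ∧ y = b x))
    (fun C _ => ?_) id two_pos (fun _ _ => rfl) fun _ _ => id
  classical
  have _ := Fintype.ofFinite C
  obtain ⟨N, _, hN⟩ := h.pow (Fin (Fintype.card C + 1)) C
  refine ⟨N, inferInstance, fun c => ?_⟩
  obtain ⟨g, a1, a2⟩ := hN c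
  obtain ⟨i, j, hij, e⟩ := Fintype.exists_ne_map_eq_of_card_lt (fun i : Fin (Fintype.card C + 1) =>
    c (g fun p => if p = i then b z else z)) (by simp)
  let G : F → Fin (Fintype.card C + 1) → F := fun x p =>
    if p = i then x else if p = j then b x else z
  have e1 : G z = fun p => if p = j then b z else z := by
    ext p; by_cases c : p = i <;> by_cases c' : p = j <;> simp_all [G]
  have e2 : G (b z) = fun p => if p = i then b z else z := by
    ext p; by_cases c : p = i <;> by_cases c' : p = j <;> simp_all [G]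
  refine ⟨fun x => g (G x), fun x y => ?_, fun x y p => ?_⟩ <;> beta_reduce at *
  · rw [a1, ← Finset.sum_subset (Finset.subset_univ {i, j}), Finset.sum_pair hij]
    · simp [G, hij.symm, hδ, two_mul]
    · intro k _ hk
      simp only [Finset.mem_insert, Finset.mem_singleton, not_or] at hk
      simp [G, hk, h0]
  · rcases p with p | ⟨rfl | rfl, rfl⟩
    · refine a2 _ _ fun s => ?_
      simp only [G]
      split_ifs
      exacts [p, rb _ _ p, r z]
    · rw [e1, e2, e]
    · rw [e1]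
      conv_lhs => rw [← hb x, e2]
      exact e

lemma RI.pair [Finite A] {δ : A → A → ℝ} (h0 : ∀ x, δ x x = 0) (L : Type) [Fintype L]
    (R : (L → A) → (L → A) → Prop) (e : Equivalence R)
    (h : RI (L → A) (fun x y => ∑ l, δ (x l) (y l)) R) :
    RI (Bool × L → A) (fun x y => ∑ l, δ (x l) (y l)) (Pr R) := by
  classical
  let b : Perm (Bool × L) := Equiv.prodCongr Equiv.boolNot (Equiv.refl L)
  have hb : ∀ x : Bool × L → A, (x ∘ b) ∘ b = x := fun x => by ext ⟨s, l⟩; simp [b]
  have : ∀ T : Finset (Bool × L → A), RI (Bool × L → A) (fun x y => ∑ l, δ (x l) (y l)) fun x y =>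
      (∀ s, R (lt x s) (lt y s)) ∨ ((x ∈ T ∨ x ∘ b ∈ T) ∧ y = x ∘ b) := fun T => by
    induction T using Finset.induction_on with
    | empty =>
      exact (h.pow Bool).sub lt one_pos (fun x y => by simp [lt, Fintype.sum_prod_type])
        fun x y r => by simpa using r
    | insert z T _ ih =>
      refine (ih.swap (by simp [h0]) (· ∘ b) hb (fun x y => Equiv.sum_comp b fun l => δ (x l) (y l))
        (fun x => .inl fun s => e.refl _)
        (fun x y p => p.imp (fun p s => p (!s)) fun p => ⟨?_, by rw [p.2]⟩) z).sub id one_pos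
        (by simp) fun x y r => ?_
      · rw [hb]; exact p.1.symm
      · simp only [Finset.mem_insert] at r
        change (_ ∨ (x ∈ T ∨ x ∘ b ∈ T) ∧ y = x ∘ b) ∨ (x = z ∨ x ∘ b = z) ∧ y = x ∘ b
        tauto
  have _ := Fintype.ofFinite A
  intro C _
  obtain ⟨N, _, hN⟩ := this Finset.univ C
  refine ⟨N, inferInstance, fun c => ?_⟩
  obtain ⟨g, a1, a2⟩ := hN c
  refine ⟨g, a1, fun x y ⟨s, p⟩ => ?_⟩
  cases s
  · exact a2 _ _ (.inl (by simpa using p))
  · exact (a2 x (x ∘ b) (.inr (by simp))).trans (a2 _ _ (.inl fun s => by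
      have := p (!s)
      rwa [show xor true (!s) = s by simp] at this))

lemma Bal.real {L S L0 : Type} [Fintype L] [Fintype S] [Fintype L0] {g : L → S × L0 ⊕ A}
    {n : S → ℕ} (h : Bal g n) (φ : S × L0 → ℝ) :
    ∑ l, (g l).elim φ 0 = ∑ s, n s * ∑ l, φ (s, l) := by
  classical
  have : ∀ p, ∑ l, (g l).elim (Pi.single p 1) 0 = (n p.1 : ℝ) := fun p => by
    have := h (Pi.single p 1)
    rw [Finset.sum_eq_single p.1 (fun s _ hs => by simp [Prod.ext_iff, hs]) (by simp),
      Finset.sum_eq_single p.2 (fun s _ hs => by simp [Prod.ext_iff, hs]) (by simp)]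
      at this
    simp only [Prod.mk.eta, Pi.single_eq_same, mul_one] at this
    rw [← this, sm, Nat.cast_sum]
    refine Finset.sum_congr rfl fun l _ => ?_
    cases g l <;> simp [Pi.single_apply]
  simp only [Finset.mul_sum]
  rw [← Fintype.sum_prod_type' fun s l => n s * φ (s, l)]
  simp only [← this, Finset.sum_mul]
  rw [Finset.sum_comm]
  refine Finset.sum_congr rfl fun l _ => ?_
  cases g l <;> simp [Pi.single_apply]

/-- words may be permuted freely -/
theorem RI.sym [Finite A] {δ : A → A → ℝ} {E : A → A → Prop} (e : Equivalence E)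
    (h0 : ∀ x, δ x x = 0) (h : RI A δ E) (J : Type) [Fintype J] :
    RI (J → A) (fun x y => ∑ j, δ (x j) (y j)) fun x y => ∃ σ : Perm J, ∀ j, E (x (σ j)) (y j) := by
  classical
  obtain ⟨L', _, R', g, n, -, h', hb, ⟨s, hs⟩, hg⟩ :=
    full (A := A) (Φ := fun L _ R => RI (L → A) (fun x y => ∑ l, δ (x l) (y l)) R) (RI.pair h0)
      (Perm J) J _ ⟨fun x s => e.refl (x s), fun p s => e.symm (p s),
        fun p q s => e.trans (p s) (q s)⟩ (h.pow J)
  refine h'.sub (fun x => ev g fun p => x (p.1 p.2)) (k := ∑ s, n s)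
    (Finset.sum_pos' (fun _ _ => by positivity) ⟨s, by simp, by exact_mod_cast hs⟩)
    (fun x y => ?_) fun x y ⟨σ, p⟩ => hg _ _ (Equiv.mulLeft σ⁻¹) fun τ j => ?_
  · rw [Finset.sum_mul]
    refine Eq.trans (Finset.sum_congr rfl fun l _ => ?_)
      ((hb.real fun p => δ (x (p.1 p.2)) (y (p.1 p.2))).trans (Finset.sum_congr rfl fun τ _ =>
        congrArg _ (Equiv.sum_comp τ fun j => δ (x j) (y j))))
    unfold ev
    cases g l <;> simp [h0]
  · simpa [lt] using p (σ⁻¹ (τ j))

end Pool.Agent.H.BS
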