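import Pool.Agent.H.BS.E

set_option autoImplicit false

namespace Pool.Agent.H.BS

open Equiv

lemma ext_span {d N : ℕ} {X : Set (EuclideanSpace ℝ (Fin d))} (hX : X.Finite)
    {g : X → EuclideanSpace ℝ (Fin N)} (hg : Isometry g) :
    ∃ G : EuclideanSpace ℝ (Fin d) → EuclideanSpace ℝ (Fin N), (∀ x : X, G x = g x) ∧
      ∀ a ∈ affineSpan ℝ X, ∀ b ∈ affineSpan ℝ X, dist (G a) (G b) = dist a b := by
  classical
  have _ := hX.fintype
  have key : ∀ u v : X → ℝ, ∑ x, u x = 1 → ∑ x, v x = 1 →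
      dist (∑ x, u x • g x) (∑ x, v x • g x) = dist (∑ x, u x • x.1) (∑ x, v x • x.1) :=
    fun u v hu hv => by
    have h : ∑ x, (u x - v x) = 0 := by simp [hu, hv]
    rw [← sq_eq_sq₀ dist_nonneg dist_nonneg]
    simp only [dist_eq_norm, ← Finset.sum_sub_distrib, ← sub_smul, ← real_inner_self_eq_norm_sq]
    rw [inner_sum_smul_sum_smul_of_sum_eq_zero _ h _ h,
      inner_sum_smul_sum_smul_of_sum_eq_zero _ h _ h]
    simp only [← dist_eq_norm, hg.dist_eq, Subtype.dist_eq]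
  have : ∀ a, ∃ w : X → ℝ, a ∈ affineSpan ℝ X → ∑ x, w x = 1 ∧ ∑ x, w x • x.1 = a := fun a => by
    by_cases h : a ∈ affineSpan ℝ X
    · rw [← Subtype.range_coe (s := X)] at h
      obtain ⟨w, h1, h2⟩ := eq_affineCombination_of_mem_affineSpan_of_fintype h
      exact ⟨w, fun _ => ⟨h1, by rw [h2, Finset.affineCombination_eq_linear_combination _ _ _ h1]⟩⟩
    · exact ⟨0, fun h' => absurd h' h⟩
  choose w hw using this
  refine ⟨fun a => ∑ x, w a x • g x, fun x => ?_, fun a ha b hb => ?_⟩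
  · have h := hw x (subset_affineSpan ℝ X x.2)
    have := key _ (Pi.single x 1) h.1 (by simp)
    simpa [h.2, Pi.single_apply] using this
  · rw [key _ _ (hw a ha).1 (hw b hb).1, (hw a ha).2, (hw b hb).2]

lemma RI.base {d : ℕ} {X : Set (EuclideanSpace ℝ (Fin d))} (hX : X.Finite)
    (h : ∀ r : ℕ, ∃ N : ℕ, ∀ c : EuclideanSpace ℝ (Fin N) → Fin r,
      ∃ g : X → EuclideanSpace ℝ (Fin N), Isometry g ∧ ∀ x y : X, c (g x) = c (g y))
    {A : Type} (P : A → EuclideanSpace ℝ (Fin d)) (t : A → ℝ) (hP : ∀ a, P a ∈ affineSpan ℝ X) :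
    RI A (fun a b => dist (P a) (P b) ^ 2 + (t a - t b) ^ 2)
      fun a b => a = b ∨ (P a ∈ X ∧ t a = 0) ∧ P b ∈ X ∧ t b = 0 := fun C _ => by
  obtain ⟨r, ⟨e⟩⟩ := Finite.exists_equiv_fin C
  obtain ⟨N, hN⟩ := h r
  refine ⟨Option (Fin N), inferInstance, fun c => ?_⟩
  obtain ⟨g, h1, h2⟩ := hN fun y => e (c fun o => o.elim 0 y)
  obtain ⟨G, g1, g2⟩ := ext_span hX h1
  refine ⟨fun a o => o.elim (t a) (G (P a)), fun a b => ?_, ?_⟩
  · simp [← g2 _ (hP a) _ (hP b), EuclideanSpace.dist_sq_eq, Real.dist_eq, add_comm]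
  · rintro a b (rfl | ⟨⟨p, q⟩, p', q'⟩)
    · rfl
    · simpa only [q, q', g1 ⟨_, p⟩, g1 ⟨_, p'⟩] using e.injective (h2 ⟨_, p⟩ ⟨_, p'⟩)

lemma RI.out {F : Type} [PseudoMetricSpace F] {z : F} (h : RI F (fun x y => dist x y ^ 2) fun _ y => y = z)
    (r : ℕ) : ∃ N : ℕ, ∀ c : EuclideanSpace ℝ (Fin N) → Fin r,
      ∃ g : F → EuclideanSpace ℝ (Fin N), Isometry g ∧ ∀ x y, c (g x) = c (g y) := by
  obtain ⟨N, _, hN⟩ := h (Fin r)
  let e := (Fintype.equivFin N).symm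
  refine ⟨Fintype.card N, fun c => ?_⟩
  obtain ⟨f, a, b⟩ := hN fun v => c (WithLp.toLp 2 fun i => v (e i))
  refine ⟨fun x => WithLp.toLp 2 fun i => f x (e i), Isometry.of_dist_eq fun x y => ?_,
    fun x y => (b x z rfl).trans (b y z rfl).symm⟩
  rw [← sq_eq_sq₀ dist_nonneg dist_nonneg, EuclideanSpace.dist_sq_eq]
  simpa [Real.dist_eq] using (e.sum_comp fun n => (f x n - f y n) ^ 2).trans (a x y)

theorem pyramid (d : ℕ) (X : Set (EuclideanSpace ℝ (Fin d))) (z : EuclideanSpace ℝ (Fin (d + 1)))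
    (hX : X.Finite) (h : ∀ r : ℕ, ∃ N : ℕ, ∀ c : EuclideanSpace ℝ (Fin N) → Fin r,
      ∃ g : X → EuclideanSpace ℝ (Fin N), Isometry g ∧ ∀ x y : X, c (g x) = c (g y))
    (hz : z (Fin.last d) ≠ 0) (r : ℕ) : ∃ N : ℕ, ∀ c : EuclideanSpace ℝ (Fin N) → Fin r,
      ∃ g : ({y : EuclideanSpace ℝ (Fin (d + 1)) |
        y (Fin.last d) = 0 ∧ ∃ x ∈ X, ∀ i : Fin d, y (Fin.castSucc i) = x i}
        ∪ {z} : Set (EuclideanSpace ℝ (Fin (d + 1)))) → EuclideanSpace ℝ (Fin N),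
        Isometry g ∧ ∀ x y, c (g x) = c (g y) := by
  classical
  rcases X.eq_empty_or_nonempty with rfl | ⟨x0, h0⟩
  · refine ⟨0, fun c => ⟨0, Isometry.of_dist_eq fun ⟨a, p⟩ ⟨b, q⟩ => ?_, fun _ _ => rfl⟩⟩
    obtain rfl : a = z := by simpa using p
    obtain rfl : b = a := by simpa using q
    simp
  have _ := hX.to_subtype
  have _ : Nonempty (affineSpan ℝ X) := ⟨⟨_, subset_affineSpan ℝ X h0⟩⟩
  let π : EuclideanSpace ℝ (Fin (d + 1)) → EuclideanSpace ℝ (Fin d) := fun y =>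
    WithLp.toLp 2 fun i => y i.castSucc
  have hπ : ∀ y y', dist y y' ^ 2 = dist (π y) (π y') ^ 2 + (y (Fin.last d) - y' (Fin.last d)) ^ 2 :=
    fun y y' => by simp [π, EuclideanSpace.dist_sq_eq, Fin.sum_univ_castSucc, Real.dist_eq]
  obtain ⟨p, hp, h1⟩ : ∃ p ∈ affineSpan ℝ X, ∀ x ∈ X,
      dist x (π z) ^ 2 = dist x p ^ 2 + dist (π z) p ^ 2 :=
    ⟨_, (EuclideanGeometry.orthogonalProjection (affineSpan ℝ X) (π z)).2, fun x hx => by
      simpa only [sq] using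
        EuclideanGeometry.dist_sq_eq_dist_orthogonalProjection_sq_add_dist_orthogonalProjection_sq
          (π z) (subset_affineSpan ℝ X hx)⟩
  set H := dist (π z) p ^ 2 + z (Fin.last d) ^ 2 with hH
  have H0 : 0 < H := by positivity
  obtain ⟨n, hn⟩ := exists_nat_ge (dist p x0 ^ 2 / H)
  obtain ⟨v, hv⟩ : ∃ v : ℝ, dist p x0 ^ 2 / (n + 2) + 2 * v ^ 2 = H :=
    ⟨√((H - dist p x0 ^ 2 / (n + 2)) / 2), by
      rw [Real.sq_sqrt]
      · ring
      · rw [div_le_iff₀ H0] at hn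
        have : dist p x0 ^ 2 / (n + 2) ≤ H := by rw [div_le_iff₀ (by positivity)]; nlinarith
        linarith⟩
  let P : X ⊕ Fin (n + 3) → EuclideanSpace ℝ (Fin d) :=
    Sum.elim (↑) fun i => AffineMap.lineMap p x0 ((i : ℝ) / (n + 2))
  let t : X ⊕ Fin (n + 3) → ℝ := Sum.elim 0 fun i => if i.1 = 1 then v else 0
  refine RI.out (F := Subtype _) (z := ⟨z, by simp⟩) (((RI.base hX h P t ?_).sym ⟨fun _ => .inl rfl,
    fun p => p.imp Eq.symm And.symm, ?_⟩ (by simp) (Fin (n + 3))).sub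
    (fun y => if h : π y ∈ X ∧ y.1 (Fin.last d) = 0 then
      Fin.cons (.inl ⟨_, h.1⟩) fun i => .inr i.castSucc else .inr) one_pos ?_ ?_) r
  · rintro (x | i)
    · exact subset_affineSpan ℝ X x.2
    · exact AffineMap.lineMap_mem _ hp (subset_affineSpan ℝ X h0)
  · rintro a b c (rfl | p) (rfl | q)
    exacts [.inl rfl, .inr q, .inr p, .inr ⟨p.1, q.2⟩]
  · have e : ∀ y : EuclideanSpace ℝ (Fin (d + 1)), y ∈ ({y | y (Fin.last d) = 0 ∧ ∃ x ∈ X,
        ∀ i : Fin d, y (Fin.castSucc i) = x i} ∪ {z} : Set _) →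
        ¬(π y ∈ X ∧ y (Fin.last d) = 0) → y = z := by
      rintro y (⟨a, x, b, c⟩ | a) h
      · exact absurd ⟨(show x = π y by ext i; exact (c i).symm) ▸ b, a⟩ h
      · exact a
    have k : ∑ i : Fin (n + 2), (dist (P (.inr i.castSucc)) (P (.inr i.succ)) ^ 2 +
        (t (.inr i.castSucc) - t (.inr i.succ)) ^ 2) = H := by
      rw [← hv, Finset.sum_add_distrib, Finset.sum_congr rfl
        (g := fun _ => dist p x0 ^ 2 / (n + 2) ^ 2) fun i _ => by
          simp [P, dist_lineMap_lineMap, Real.dist_eq, ← sub_div, abs_div, mul_pow]; ring]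
      simp [t, Fin.sum_univ_succ]
      field_simp
      ring
    rintro ⟨y, p⟩ ⟨y', q⟩
    simp only [Subtype.dist_eq, hπ, one_mul]
    split_ifs with a b b
    · simp [Fin.sum_univ_succ, a.2, b.2, P, t]
    · rw [e _ q b, Fin.sum_univ_succ, h1 _ a.1]
      simp only [Fin.cons_succ, Fin.cons_zero, k]
      simp [P, t, a.2, hH, add_assoc]
    · rw [e _ p a, Fin.sum_univ_succ, dist_comm (π z), h1 _ b.1]
      simp only [Fin.cons_succ, Fin.cons_zero, dist_comm (P (.inr (Fin.succ _))),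
        sub_sq_comm (t (.inr (Fin.succ _))), k]
      simp [P, t, b.2, hH, add_assoc, dist_comm]
    · simp [e _ p a, e _ q b]
  · rintro y _ rfl
    rw [dif_neg (show ¬(π z ∈ X ∧ z (Fin.last d) = 0) from fun h => hz h.2)]
    split_ifs with a
    · refine ⟨finRotate _, Fin.lastCases (.inr ?_) fun i => .inl (by simp)⟩
      have : (n + 2 : ℝ) ≠ 0 := by positivity
      simp [P, t, a.1, this, h0]
    · exact ⟨1, fun _ => .inl rfl⟩

end Pool.Agent.H.BS
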