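import Pool.Agent.H.BS.A

set_option autoImplicit false

namespace Pool.Agent.H.BS

open Equiv Real

abbrev E (n : ℕ) := EuclideanSpace ℝ (Fin n)

inductive Sv {G : Type} [Group G] : Subgroup G → Prop
  | bot : Sv ⊥
  | step (H K : Subgroup G) : ⁅H, H⁆ ≤ K → Sv K → Sv H

lemma Sv.map {G G' : Type} [Group G] [Group G'] (f : G →* G') {H : Subgroup G} (h : Sv H) :
    Sv (H.map f) := by
  induction h with
  | bot => simpa using Sv.bot
  | step H K h _ ih =>
    exact .step _ _ ((Subgroup.map_commutator H H f).ge.trans (Subgroup.map_mono h)) ih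

lemma Sv.solv {G : Type} [Group G] {H : Subgroup G} (h : Sv H) : Group.IsSolvable H := by
  have : ∀ K : Subgroup G, Sv K → ∀ m, (derivedSeries H m).map H.subtype ≤ K →
      ∃ n, (derivedSeries H n).map H.subtype = ⊥ := fun K hK => by
    induction hK with
    | bot => exact fun m h => ⟨m, le_bot_iff.1 h⟩
    | step K L h _ ih =>
      refine fun m hm => ih (m + 1) ?_
      rw [derivedSeries_succ, Subgroup.map_commutator]
      exact (Subgroup.commutator_mono hm hm).trans h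
  obtain ⟨n, hn⟩ := this H h 0 (Subgroup.map_subtype_le _)
  exact ⟨n, (Subgroup.map_eq_bot_iff_of_injective _ H.subtype_injective).1 hn⟩

variable {A B : Type}

def Rp (σ : Perm (A × B)) (h : Perm A) (g : A → Perm B) : Prop := ∀ a b, σ (a, b) = (h a, g a b)

lemma Rp.mul {σ τ : Perm (A × B)} {h h' : Perm A} {g g' : A → Perm B} (p : Rp σ h g)
    (q : Rp τ h' g') : Rp (σ * τ) (h * h') fun a => g (h' a) * g' a := fun a b => by
  simp [q a b, p (h' a)]

lemma Rp.inv {σ : Perm (A × B)} {h : Perm A} {g : A → Perm B} (p : Rp σ h g) :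
    Rp σ⁻¹ h⁻¹ fun a => (g (h⁻¹ a))⁻¹ := fun a b => by
  rw [Perm.inv_eq_iff_eq, p]; simp

def Wr (H : Subgroup (Perm A)) (K : Subgroup (Perm B)) : Subgroup (Perm (A × B)) where
  carrier := {σ | ∃ h ∈ H, ∃ g : A → Perm B, (∀ a, g a ∈ K) ∧ Rp σ h g}
  one_mem' := ⟨1, one_mem _, 1, fun _ => one_mem _, fun _ _ => rfl⟩
  mul_mem' := fun ⟨_, h, _, g, p⟩ ⟨_, h', _, g', q⟩ =>
    ⟨_, mul_mem h h', _, fun _ => mul_mem (g _) (g' _), p.mul q⟩
  inv_mem' := fun ⟨_, h, _, g, p⟩ => ⟨_, inv_mem h, _, fun _ => inv_mem (g _), p.inv⟩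

lemma Sv.wr {H : Subgroup (Perm A)} {K : Subgroup (Perm B)} (h : Sv H) (k : Sv K) :
    Sv (Wr H K) := by
  induction h with
  | bot =>
    induction k with
    | bot =>
      convert Sv.bot
      refine le_bot_iff.1 ?_
      rintro σ ⟨_, rfl, g, hg, p⟩
      refine Equiv.ext fun ⟨a, b⟩ => ?_
      rw [p, show g a = 1 from hg a]; rfl
    | step K L h _ ih =>
      refine .step _ _ (Subgroup.commutator_le.2 ?_) ih
      rintro σ ⟨_, rfl, g, hg, p⟩ τ ⟨_, rfl, g', hg', q⟩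
      refine ⟨_, ?_, _, fun a => ?_, ((p.mul q).mul p.inv).mul q.inv⟩
      · simp
      · exact h (Subgroup.commutator_mem_commutator (hg a) (hg' a))
  | step H L h _ ih =>
    refine .step _ _ (Subgroup.commutator_le.2 ?_) ih
    rintro σ ⟨_, h1, g, hg, p⟩ τ ⟨_, h2, g', hg', q⟩
    exact ⟨_, h (Subgroup.commutator_mem_commutator h1 h2), _, fun a =>
      mul_mem (mul_mem (mul_mem (hg _) (hg' _)) (inv_mem (hg _))) (inv_mem (hg' _)),
      ((p.mul q).mul p.inv).mul q.inv⟩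

def Rel {C : Type} (H : Subgroup (Perm A)) (a b : A → C) : Prop := ∃ σ ∈ H, ∀ i, a i = b (σ i)

lemma Rel.wr {C : Type} {H : Subgroup (Perm A)} {K : Subgroup (Perm B)} {a b : A × B → C}
    {h : Perm A} (hh : h ∈ H) (p : ∀ j, Rel K (fun i => a (j, i)) fun i => b (h j, i)) :
    Rel (Wr H K) a b := by
  choose g hg p using p
  exact ⟨Equiv.prodShear h g, ⟨h, hh, g, hg, fun _ _ => rfl⟩, fun ⟨j, i⟩ => p j i⟩

def Sub {d : ℕ} (X : Set (E d)) : Prop :=
  ∃ (n : ℕ) (Y : Set (E n)) (f : E d → E n), Y.Finite ∧ Isometry f ∧ f '' X ⊆ Y ∧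
    ∃ G : Subgroup (E n ≃ᵢ E n), Group.IsSolvable G ∧ (∀ g ∈ G, g '' Y = Y) ∧
      ∀ x ∈ Y, ∀ y ∈ Y, ∃ g ∈ G, g x = y

lemma main [Fintype A] {d : ℕ} {H : Subgroup (Perm A)} (hH : Sv H) {F : E d → A → ℝ} {c : ℝ}
    (hc : 0 < c) (hF : ∀ x y, ∑ w, (F x w - F y w) ^ 2 = c * dist x y ^ 2) {X : Set (E d)}
    (x0 : E d) (hX : ∀ x ∈ X, Rel H (F x) (F x0)) : Sub X := by
  classical
  let e := Fintype.equivFin A
  let f : E d → E (Fintype.card A) := fun x => WithLp.toLp 2 fun k => F x (e.symm k) / √c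
  let p : Perm A →* (E (Fintype.card A) ≃ᵢ E (Fintype.card A)) :=
    { toFun := fun σ =>
        (LinearIsometryEquiv.piLpCongrLeft 2 ℝ ℝ ((e.symm.trans σ).trans e)).toIsometryEquiv
      map_one' := by ext; simp [Perm.one_def]
      map_mul' := fun _ _ => by ext; simp [Perm.mul_def] }
  refine ⟨_, (fun σ => p σ (f x0)) '' H, f, Set.toFinite _, Isometry.of_dist_eq fun x y => ?_, ?_,
    H.map p, (hH.map p).solv, ?_, ?_⟩
  · rw [← sq_eq_sq₀ dist_nonneg dist_nonneg, EuclideanSpace.dist_sq_eq,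
      ← mul_right_inj' hc.ne', ← hF, Finset.mul_sum, ← e.symm.sum_comp]
    refine Finset.sum_congr rfl fun k _ => ?_
    simp only [f, Real.dist_eq, sq_abs, ← sub_div, div_pow, sq_sqrt hc.le]
    field_simp
  · rintro _ ⟨x, hx, rfl⟩
    obtain ⟨σ, h, hσ⟩ := hX x hx
    exact ⟨σ⁻¹, inv_mem h, by ext; simp [p, f, hσ, Perm.inv_def]⟩
  · rintro _ ⟨σ, h, rfl⟩
    refine Set.Subset.antisymm ?_ ?_
    · rintro _ ⟨_, ⟨τ, h', rfl⟩, rfl⟩
      exact ⟨σ * τ, mul_mem h h', by simp⟩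
    · rintro _ ⟨τ, h', rfl⟩
      exact ⟨_, ⟨σ⁻¹ * τ, mul_mem (inv_mem h) h', rfl⟩, by
        rw [← IsometryEquiv.mul_apply, ← map_mul]; simp⟩
  · rintro _ ⟨σ, h, rfl⟩ _ ⟨τ, h', rfl⟩
    exact ⟨_, ⟨τ * σ⁻¹, mul_mem h' (inv_mem h), rfl⟩, by
      rw [← IsometryEquiv.mul_apply, ← map_mul]; simp⟩

/-- every finite transitive set lies in a soluble set -/
theorem trans_sub {d : ℕ} (X : Set (E d)) (hX : X.Finite)
    (ht : ∀ x ∈ X, ∀ y ∈ X, ∃ g : E d ≃ᵢ E d, g '' X = X ∧ g x = y) : Sub X := by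
  classical
  rcases X.eq_empty_or_nonempty with rfl | ⟨x0, h0⟩
  · exact ⟨d, ∅, id, hX, isometry_id, by simp, ⊥, inferInstance, by simp, by simp⟩
  have _ : Fintype X := hX.fintype
  let Γ : Subgroup (Perm X) :=
    { carrier := {σ | ∃ g : E d ≃ᵢ E d, ∀ x : X, g x = σ x}
      one_mem' := ⟨1, fun _ => rfl⟩
      mul_mem' := fun ⟨g, p⟩ ⟨g', q⟩ => ⟨g * g', fun x => by simp [p, q]⟩
      inv_mem' := fun {σ} ⟨g, p⟩ => ⟨g⁻¹, fun x => g.injective (by simp [p])⟩ }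
  choose g hg using fun σ : Γ => σ.2
  obtain ⟨L, _, R, G, n, -, ⟨H, hH, hR⟩, hb, ⟨s, hs⟩, hG⟩ :=
    full (A := X) (Φ := fun L _ R => ∃ H : Subgroup (Perm L), Sv H ∧ ∀ x y, R x y → Rel H x y)
      (fun L _ R _ ⟨H, hH, h⟩ => ⟨Wr ⊤ H, (Sv.step ⊤ ⊥ (Subgroup.commutator_le.2 fun a _ b _ =>
        (by decide : ∀ a b : Perm Bool, a * b * a⁻¹ * b⁻¹ = 1) a b) .bot).wr hH,
        fun x y ⟨e, p⟩ => Rel.wr (h := bif e then boolNot else 1) trivial fun j => by
          have := h _ _ (p j)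
          cases e
          · rw [Bool.false_xor] at this; exact this
          · rw [Bool.true_xor] at this; exact this⟩)
      Γ Unit Eq eq_equivalence ⟨⊥, .bot, fun x y h => ⟨1, one_mem _, congrFun h⟩⟩
  refine main (hH.wr .bot)
    (F := fun y (w : L × Fin d) => ((G w.1).elim (fun q => g q.1 y) (↑) : E d) w.2)
    (c := ∑ s, n s) (Finset.sum_pos' (fun _ _ => by positivity) ⟨s, by simp, by exact_mod_cast hs⟩)
    (fun x y => ?_) x0 fun x hx => ?_
  · have := hb 1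
    simp only [sm, Pi.one_apply, Finset.univ_unique, Finset.sum_const, Finset.card_singleton,
      smul_eq_mul, mul_one] at this
    rw [← Nat.cast_sum, ← this, Nat.cast_sum, Finset.sum_mul, Fintype.sum_prod_type]
    refine Finset.sum_congr rfl fun l _ => ?_
    dsimp only
    rcases G l with q | a
    · simp [← (g q.1).dist_eq x y, EuclideanSpace.dist_sq_eq, Real.dist_eq]
    · simp
  · obtain ⟨k, h1, h2⟩ := ht x0 h0 x hx
    let γ : Γ := ⟨k.toEquiv.subtypeEquiv fun a => by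
      conv_rhs => rw [← h1]
      exact (k.injective.mem_set_image).symm, k, fun _ => rfl⟩
    obtain ⟨σ, p, q⟩ := hR _ _ (hG (fun q => q.1.1 ⟨x, hx⟩) (fun q => q.1.1 ⟨x0, h0⟩)
      (Equiv.mulRight γ) fun τ => by
        ext1 l
        exact congrArg τ.1 (Subtype.ext h2.symm))
    refine Rel.wr p fun j => ⟨1, one_mem _, fun i => ?_⟩
    have e : ∀ (y : X) l, ((G l).elim (fun q => g q.1 y) (↑) : E d) = ev G (fun q => q.1.1 y) l :=
      fun y l => by unfold ev; cases G l <;> simp [hg]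
    simp only [Perm.one_apply]
    rw [e ⟨x, hx⟩, e ⟨x0, h0⟩, q]

end Pool.Agent.H.BS
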