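import Pool.Agent.H.BS.F

set_option autoImplicit false

namespace Pool.Agent.H.BS

open Finset

lemma dec {C : Type} {r : C → C → Prop} (hw : WellFounded r) (φ : C → C) :
    ∃ κ : C → Prop, ∀ t, r (φ t) t → (κ t ↔ ¬κ (φ t)) :=
  ⟨hw.fix fun t ih => ∃ h : r (φ t) t, ¬ih _ h, fun t h => by rw [hw.fix_eq]; simp [h]⟩

lemma mat {B : Type} (c c' : B → ℝ) : ∃ κ : B → Prop × Prop,
    (∀ a a', c a = c a' ↔ c' a = c' a') → ∀ a a', κ a = κ a' → c a = c' a' → c a = c a' := by
  have hw := (WellOrderingRel.isWellOrder (α := ℝ)).wf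
  obtain ⟨κ, h⟩ := dec hw (Function.extend c c' id)
  obtain ⟨κ', h'⟩ := dec hw (Function.extend c' c id)
  refine ⟨fun a => (κ (c a), κ' (c a)), fun k a a' e p => ?_⟩
  have e1 : Function.extend c c' id (c a') = c a :=
    (Function.FactorsThrough.extend_apply (fun a b => (k a b).1) _ _).trans p.symm
  have e2 : Function.extend c' c id (c a) = c a' :=
    p ▸ Function.FactorsThrough.extend_apply (fun a b => (k a b).2) _ _
  simp only [Prod.mk.injEq, eq_iff_iff] at e
  rcases trichotomous_of WellOrderingRel (c a) (c a') with q | q | q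
  · have := h (c a') (e1.symm ▸ q)
    rw [e1] at this
    tauto
  · exact q
  · have := h' (c a) (e2.symm ▸ q)
    rw [e2] at this
    tauto

variable {W : Type} {δ : W → W → ℝ} {E : W → W → Prop}

def Can (δ : W → W → ℝ) (E : W → W → Prop) (I : Type) [Fintype I] : Prop :=
  ∀ (S : Type) [Finite S], ∃ (Y : Type) (_ : Finite Y) (N : Type) (_ : Fintype N) (P : Y → N → ℝ),
    ∀ c : S → Y → ℝ, ∃ f : (I → W) → Y,
      (∀ u v, ∑ n, (P (f u) n - P (f v) n) ^ 2 = ∑ i, δ (u i) (v i)) ∧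
      (∀ s s' u v, (∀ i, E (u i) (v i)) → c s (f u) = c s' (f u) → c s (f v) = c s' (f v)) ∧
      (∀ s s', (∀ y y', c s y = c s y' ↔ c s' y = c s' y') → ∀ u v, (∀ i, E (u i) (v i)) →
        c s (f u) = c s' (f v) → c s (f u) = c s (f v)) ∧
      ∀ s (r : I → W), ∃ K : I → W → W → Prop, ∀ u v, (∀ i, E (u i) (r i)) → (∀ i, E (v i) (r i)) →
        (c s (f u) = c s (f v) ↔ ∀ i, K i (u i) (v i))

lemma RI.can_fin [Finite W] (e : Equivalence E) (h : RI W δ E) (m : ℕ) : Can δ E (Fin m) := by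
  classical
  induction m with
  | zero =>
    exact fun S _ => ⟨Unit, inferInstance, Empty, inferInstance, 0, fun c => ⟨0, by simp, by simp,
      by simp, fun s r => ⟨⊤, by simp⟩⟩⟩
  | succ m ih =>
    intro S _
    obtain ⟨Y, _, N, _, P, hY⟩ := ih (S × W)
    obtain ⟨M, _, B, hB⟩ := h.fin (Option (((S × Y) × S × Y → Prop) × (S × S × Y → Prop × Prop)))
    refine ⟨B × Y, inferInstance, M ⊕ N, inferInstance, fun y => Sum.elim y.1 (P y.2), fun c => ?_⟩
    choose κ hκ using fun q : S × S × Y => mat (fun a => c q.1 (a, q.2.2)) fun a => c q.2.1 (a, q.2.2)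
    obtain ⟨g0, m, g1, g2⟩ := hB fun v => if h : v ∈ B then some (fun q =>
      c q.1.1 (⟨v, h⟩, q.1.2) = c q.2.1 (⟨v, h⟩, q.2.2), fun q => κ q ⟨v, h⟩) else none
    let g : W → B := fun a => ⟨_, m a⟩
    simp only [m, dif_pos, Option.some.injEq, Prod.mk.injEq, funext_iff, eq_iff_iff] at g2
    have g3 : ∀ {a a'}, E a a' → ∀ {s s' y y'}, c s (g a, y) = c s' (g a, y') ↔
        c s (g a', y) = c s' (g a', y') := fun p s s' y y' => (g2 _ _ p).1 ((s, y), s', y')
    obtain ⟨f, f1, fA, fB, fC⟩ := hY fun s y => c s.1 (g s.2, y)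
    refine ⟨fun u => (g (u 0), f fun i => u i.succ), fun u v => ?_, fun s s' u v p q => ?_,
      fun s s' k u v p q => ?_, fun s r => ?_⟩
    · simp [Fin.sum_univ_succ, f1, g, g1]
    · exact (g3 (p 0)).1 (fA (s, _) (s', _) _ _ (fun i => p i.succ) q)
    · have := fB (s, u 0) (s', v 0) (fun y y' => (k _ _).trans (g3 (p 0))) _ _ (fun i => p i.succ) q
      exact this.trans (hκ (s, s', _) (fun a a' => k _ _) _ _ ((g2 _ _ (p 0)).2 _)
        (this.symm.trans q))
    · obtain ⟨K, hK⟩ := fC (s, r 0) fun i => r i.succ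
      refine ⟨Fin.cons (fun a a' => c s (g a, f fun i => r i.succ) = c s (g a', f fun i => r i.succ))
        K, fun u v p q => ?_⟩
      rw [Fin.forall_fin_succ]
      simp only [Fin.cons_zero, Fin.cons_succ]
      rw [← hK _ _ (fun i => p i.succ) fun i => q i.succ, ← g3 (p 0)]
      refine ⟨fun a => ?_, fun ⟨a, b⟩ => b.trans
        (fA (s, _) (s, _) _ _ (fun i => e.symm (q i.succ)) a)⟩
      have := fB (s, u 0) (s, v 0) (fun y y' => g3 (e.trans (p 0) (e.symm (q 0)))) _ _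
        (fun i => e.trans (p i.succ) (e.symm (q i.succ))) a
      exact ⟨fA (s, _) (s, _) _ _ (fun i => q i.succ) (this.symm.trans a), this⟩

/-- canonical product theorem -/
theorem RI.can [Finite W] (e : Equivalence E) (h : RI W δ E) (I : Type) [Fintype I] :
    ∃ (N : Type) (_ : Fintype N), ∀ c : (N → ℝ) → ℝ, ∃ f : (I → W) → N → ℝ,
      (∀ u v, ∑ n, (f u n - f v n) ^ 2 = ∑ i, δ (u i) (v i)) ∧
      ∀ r : I → W, ∃ K : I → W → W → Prop, ∀ u v, (∀ i, E (u i) (r i)) → (∀ i, E (v i) (r i)) →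
        (c (f u) = c (f v) ↔ ∀ i, K i (u i) (v i)) := by
  let σ := Fintype.equivFin I
  obtain ⟨Y, _, N, _, P, hY⟩ := h.can_fin e (Fintype.card I) Unit
  refine ⟨N, inferInstance, fun c => ?_⟩
  obtain ⟨f, f1, -, -, fC⟩ := hY fun _ y => c (P y)
  refine ⟨fun u => P (f fun i => u (σ.symm i)), fun u v => (f1 _ _).trans
    (σ.symm.sum_comp fun i => δ (u i) (v i)), fun r => ?_⟩
  obtain ⟨K, hK⟩ := fC () fun i => r (σ.symm i)
  exact ⟨fun i => K (σ i), fun u v p q => (hK _ _ (fun _ => p _) fun _ => q _).trans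
    (σ.forall_congr (by simp)).symm⟩

lemma union_bd {Q Ω : Type} [Fintype Q] [Fintype Ω] [DecidableEq Q] [Nonempty Ω]
    (B : Q → (Q → Ω) → Prop) [∀ q, DecidablePred (B q)]
    (h : ∀ q ω, (univ.filter fun o => B q (Function.update ω q o)).card * Fintype.card Q <
      Fintype.card Ω) : ∃ ω, ∀ q, ¬B q ω := by
  classical
  by_contra! hc
  obtain ⟨q0, -⟩ := hc (Classical.arbitrary _)
  have _ : Nonempty Q := ⟨q0⟩
  have h1 : ∀ q, (univ.filter (B q)).card * Fintype.card Q < Fintype.card (Q → Ω) := fun q => by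
    have : ∑ ω, (univ.filter fun o => B q (Function.update ω q o)).card =
        (univ.filter (B q)).card * Fintype.card Ω := by
      let σ : (Q → Ω) × Ω → (Q → Ω) × Ω := fun p => (Function.update p.1 q p.2, p.1 q)
      have := Equiv.sum_comp (Function.Involutive.toPerm σ fun p => by simp [σ])
        fun p => if B q p.1 then 1 else 0
      simp only [Fintype.sum_prod_type] at this
      simp only [card_filter, sum_mul]
      exact this.trans (sum_congr rfl fun ω _ => by split_ifs <;> simp)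
    have h2 := sum_lt_sum_of_nonempty univ_nonempty fun ω (_ : ω ∈ univ) => h q ω
    rw [← sum_mul, this, sum_const, card_univ, smul_eq_mul, mul_right_comm] at h2
    exact lt_of_mul_lt_mul_right h2 (Nat.zero_le _)
  have h2 := sum_lt_sum_of_nonempty univ_nonempty fun q (_ : q ∈ univ) => h1 q
  rw [← sum_mul, sum_const, card_univ, smul_eq_mul, mul_comm] at h2
  refine absurd (lt_of_mul_lt_mul_left h2 (Nat.zero_le _)) (not_lt.2 (le_trans ?_ card_biUnion_le))
  exact card_le_card fun ω _ => by simpa using hc ω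

abbrev V (d : ℕ) := EuclideanSpace ℝ (Fin d) × ℝ × EuclideanSpace ℝ (Fin d)

noncomputable def dd {d : ℕ} (a b : V d) : ℝ :=
  dist a.1 b.1 ^ 2 + (a.2.1 - b.2.1) ^ 2 + dist a.2.2 b.2.2 ^ 2

lemma tw {d : ℕ} (x y ξ ζ : EuclideanSpace ℝ (Fin d)) {Λ : ℝ} (hΛ : 0 ≤ Λ)
    (h : x ≠ y → dist ξ ζ ^ 2 ≤ Λ * dist x y ^ 2) :
    ∃ g : Bool → EuclideanSpace ℝ (Fin d) → V d,
      (∀ e a b, dd (g e a) (g e b) = Λ * dist a b ^ 2) ∧ (∀ e, g e x = (bif e then ζ else ξ, 0, 0)) ∧
      (x ≠ y → ∀ e e', g e y = g e' y) ∧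
      ∀ S : AffineSubspace ℝ _, ξ ∈ S → ζ ∈ S → ∀ e a, (g e a).1 ∈ S := by
  let τ : EuclideanSpace ℝ (Fin d) → ℝ := fun a => inner ℝ (a - x) (y - x) / ‖y - x‖ ^ 2
  refine ⟨fun e a => (AffineMap.lineMap (bif e then ζ else ξ) (midpoint ℝ ξ ζ) (τ a),
    √(Λ * dist x y ^ 2 - dist ξ ζ ^ 2 / 4) * τ a, √Λ • (a - x - τ a • (y - x))),
    fun e a b => ?_, fun e => by simp [τ], fun c e e' => ?_, fun S p q e a =>
      AffineMap.lineMap_mem _ (by cases e <;> assumption) (AffineMap.lineMap_mem _ p q)⟩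
  · have h1 : dist (bif e then ζ else ξ) (midpoint ℝ ξ ζ) ^ 2 = dist ξ ζ ^ 2 / 4 := by
      cases e <;> simp [mul_pow] <;> ring
    have h2 : a - x - τ a • (y - x) - (b - x - τ b • (y - x)) = a - b - (τ a - τ b) • (y - x) := by
      module
    simp only [dd, dist_lineMap_lineMap, mul_pow, h1, ← mul_sub, Real.dist_eq, sq_abs]
    rw [dist_eq_norm (√Λ • _), ← smul_sub, h2, norm_smul, mul_pow, norm_sub_sq_real, norm_smul,
      mul_pow, real_inner_smul_right, dist_eq_norm a b, Real.norm_eq_abs, Real.norm_eq_abs, sq_abs,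
      sq_abs, Real.sq_sqrt hΛ]
    by_cases c : x = y
    · simp [τ, c]
    have h3 : inner ℝ (a - b) (y - x) = (τ a - τ b) * ‖y - x‖ ^ 2 := by
      have : ‖y - x‖ ≠ 0 := by simpa [sub_eq_zero] using Ne.symm c
      simp only [τ]
      rw [← sub_div, ← inner_sub_left, sub_sub_sub_cancel_right, div_mul_cancel₀ _ (by positivity)]
    rw [Real.sq_sqrt (by nlinarith [h c, sq_nonneg (dist ξ ζ)]), h3, dist_comm x, dist_eq_norm y x]
    ring
  · have : τ y = 1 := by
      have : ‖y - x‖ ≠ 0 := by simpa [sub_eq_zero] using Ne.symm c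
      simp [τ, this]
    simp [this]

lemma RI.base2 {d : ℕ} {X : Set (EuclideanSpace ℝ (Fin d))} (hX : X.Finite)
    (h : ∀ r : ℕ, ∃ N : ℕ, ∀ c : EuclideanSpace ℝ (Fin N) → Fin r,
      ∃ g : X → EuclideanSpace ℝ (Fin N), Isometry g ∧ ∀ x y : X, c (g x) = c (g y))
    (W : Set (V d)) (hP : ∀ a ∈ W, a.1 ∈ affineSpan ℝ X) :
    RI W (fun a b => dd a.1 b.1) fun a b => a = b ∨
      (∃ x : X, a.1 = (x.1, 0, 0)) ∧ ∃ x : X, b.1 = (x.1, 0, 0) := fun C _ => by
  obtain ⟨r, ⟨e⟩⟩ := Finite.exists_equiv_fin C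
  obtain ⟨N, hN⟩ := h r
  refine ⟨Fin N ⊕ Option (Fin d), inferInstance, fun c => ?_⟩
  obtain ⟨g, h1, h2⟩ := hN fun y => e (c (Sum.elim y 0))
  obtain ⟨G, g1, g2⟩ := ext_span hX h1
  refine ⟨fun a => Sum.elim (G a.1.1) fun o => o.elim a.1.2.1 a.1.2.2, fun a b => ?_, ?_⟩
  · simp [dd, ← g2 _ (hP _ a.2) _ (hP _ b.2), EuclideanSpace.dist_sq_eq, Real.dist_eq, add_assoc]
  · rintro a b (rfl | ⟨⟨p, q⟩, p', q'⟩)
    · rfl
    · have : (fun o : Option (Fin d) => o.elim (0 : ℝ) (0 : EuclideanSpace ℝ (Fin d))) = 0 := by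
        ext (_ | _) <;> rfl
      simpa only [q, q', g1, this] using e.injective (h2 p p')

theorem canon (d : ℕ) (X : Finset (EuclideanSpace ℝ (Fin d)))
    (h : ∀ r : ℕ, ∃ n : ℕ, ∀ c : EuclideanSpace ℝ (Fin n) → Fin r,
      ∃ g : EuclideanSpace ℝ (Fin d) → EuclideanSpace ℝ (Fin n),
        (∀ x ∈ X, ∀ y ∈ X, dist (g x) (g y) = dist x y) ∧ ∃ k : Fin r, ∀ x ∈ X, c (g x) = k) :
    ∃ n : ℕ, ∀ c : EuclideanSpace ℝ (Fin n) → ℝ,
      ∃ g : EuclideanSpace ℝ (Fin d) → EuclideanSpace ℝ (Fin n),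
        (∀ x ∈ X, ∀ y ∈ X, dist (g x) (g y) = dist x y) ∧
        ((∃ k : ℝ, ∀ x ∈ X, c (g x) = k) ∨
          Set.InjOn (fun x => c (g x)) (↑X : Set (EuclideanSpace ℝ (Fin d)))) := by
  classical
  rcases X.eq_empty_or_nonempty with rfl | ⟨x0, h0⟩
  · exact ⟨0, fun c => ⟨0, by simp⟩⟩
  have _ : Nonempty X := ⟨⟨x0, h0⟩⟩
  obtain ⟨Λ, Λ0, hΛ⟩ : ∃ Λ : ℕ, 0 < Λ ∧ ∀ q : (X × X) × X × X, q.1.1.1 ≠ q.1.2.1 →
      dist q.2.1.1 q.2.2.1 ^ 2 ≤ Λ * dist q.1.1.1 q.1.2.1 ^ 2 := by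
    obtain ⟨b, hb⟩ := Finite.exists_le fun q : (X × X) × X × X =>
      ⌈dist q.2.1.1 q.2.2.1 ^ 2 / dist q.1.1.1 q.1.2.1 ^ 2⌉₊
    refine ⟨b + 1, by simp, fun q c => (div_le_iff₀ (pow_pos (dist_pos.2 c) 2)).1 ?_⟩
    exact (Nat.ceil_le.1 (hb q)).trans (by simp)
  choose g g1 g2 g3 g4 using fun q : (X × X) × X × X => tw _ _ _ _ Λ.cast_nonneg (hΛ q)
  let L : ((X × X) × X × X) × Bool × X → V d := fun q => g q.1 q.2.1 q.2.2
  have _ : Finite (Set.range L) := (Set.finite_range L).to_subtype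
  let ι : X → Set.range L := fun x => ⟨(x, 0, 0), (((x, x), x, x), true, x), g2 ..⟩
  set k := Fintype.card (X × X) with hk
  have k0 : 0 < k := Fintype.card_pos
  obtain ⟨s, hs⟩ : ∃ s, (4 * k - 1) ^ s * k < (4 * k) ^ s := by
    have k1 : (1 : ℝ) ≤ k := by exact_mod_cast k0
    obtain ⟨s, hs⟩ := exists_pow_lt_of_lt_one (x := (1 / k : ℝ)) (y := (4 * k - 1) / (4 * k))
      (by positivity) (by rw [div_lt_one (by positivity)]; linarith)
    rw [div_pow, div_lt_div_iff₀ (by positivity) (by positivity), one_mul] at hs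
    exact ⟨s, by
      rify
      rw [Nat.cast_sub (by omega)]
      simpa using hs⟩
  have s0 : 0 < s := Nat.pos_of_ne_zero fun c => by simp [c] at hs; omega
  set T := k * s * Λ with hT
  have T0 : 0 < T := by positivity
  obtain ⟨N, _, hN⟩ := (RI.base2 X.finite_toSet (fun r => (h r).imp fun n h c => by
    obtain ⟨g, a, k, b⟩ := h c
    exact ⟨fun x => g x, Isometry.of_dist_eq fun x y => a _ x.2 _ y.2,
      fun x y => (b _ x.2).trans (b _ y.2).symm⟩) (Set.range L) (by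
      rintro _ ⟨q, rfl⟩
      exact g4 _ _ (subset_affineSpan ℝ _ q.1.2.1.2) (subset_affineSpan ℝ _ q.1.2.2.2) ..)).can
      ⟨fun _ => .inl rfl, fun p => p.imp Eq.symm And.symm, by
        rintro a b c (rfl | p) (rfl | q)
        exacts [.inl rfl, .inr q, .inr p, .inr ⟨p.1, q.2⟩]⟩ ((X × X) × Fin s × Fin (2 * T))
  let e := (Fintype.equivFin N).symm
  refine ⟨Fintype.card N, fun c => ?_⟩
  let F : (N → ℝ) → EuclideanSpace ℝ (Fin (Fintype.card N)) := fun v =>
    WithLp.toLp 2 fun i => v (e i) / √T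
  obtain ⟨f, f1, hK⟩ := hN fun v => c (F v)
  choose K hK using hK
  suffices ∃ U : X → (X × X) × Fin s × Fin (2 * T) → Set.range L,
      (∀ x y, ∑ i, dd (U x i).1 (U y i).1 = T * dist x.1 y.1 ^ 2) ∧
      ((∀ x y, c (F (f (U x))) = c (F (f (U y)))) ∨
        ∀ x y, c (F (f (U x))) = c (F (f (U y))) → x = y) by
    obtain ⟨U, a, b⟩ := this
    refine ⟨fun x => if h : x ∈ X then F (f (U ⟨x, h⟩)) else 0, fun x p y q => ?_,
      b.imp (fun b => ⟨_, fun x p => (congrArg c (dif_pos p)).trans (b _ ⟨x0, h0⟩)⟩)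
        fun b x p y q r => ?_⟩
    · beta_reduce
      rw [dif_pos p, dif_pos q, ← sq_eq_sq₀ dist_nonneg dist_nonneg, EuclideanSpace.dist_sq_eq]
      simp only [F, Real.dist_eq, sq_abs, ← sub_div, div_pow, ← sum_div,
        Real.sq_sqrt T.cast_nonneg]
      rw [e.sum_comp fun n => (f _ n - f _ n) ^ 2, f1, a]
      field_simp
    · simp only [dif_pos (mem_coe.1 p), dif_pos (mem_coe.1 q)] at r
      exact congrArg Subtype.val (b _ _ r)
  by_cases hc : ∃ r : (X × X) × Fin s × Fin (2 * T) → Set.range L, T ≤ (univ.filter fun i =>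
      (∃ x : X, (r i).1 = (x.1, 0, 0)) ∧ ∀ a b, K r i (ι a) (ι b)).card
  · obtain ⟨r, hr⟩ := hc
    obtain ⟨J, j1, j2⟩ := exists_subset_card_eq hr
    have : ∀ x i, (if i ∈ J then ι x else r i) = r i ∨ (∃ y : X, (if i ∈ J then ι x else r i).1 =
        (y.1, 0, 0)) ∧ ∃ x : X, (r i).1 = (x.1, 0, 0) := fun x i => by
      split_ifs with c
      exacts [.inr ⟨⟨x, rfl⟩, (mem_filter.1 (j1 c)).2.1⟩, .inl rfl]
    refine ⟨fun x i => if i ∈ J then ι x else r i, fun x y => ?_, .inl fun x y =>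
      (hK r _ _ (this x) (this y)).2 fun i => ?_⟩
    · rw [← sum_subset (subset_univ J) fun i _ c => by simp [c, dd],
        sum_congr rfl (g := fun _ => dist x.1 y.1 ^ 2) fun i c => by simp [c, dd, ι]]
      simp [j2]
    · split_ifs with c
      exacts [(mem_filter.1 (j1 c)).2.2 .., (hK r r r (fun _ => .inl rfl) fun _ => .inl rfl).1 rfl i]
  push Not at hc
  let G : (X × X → Fin s → Fin (2 * T) × (X × X) × Bool) → X →
      (X × X) × Fin s × Fin (2 * T) → Set.range L := fun ω x i =>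
    if i.2.2 = (ω i.1 i.2.1).1 then ⟨_, ((i.1, (ω i.1 i.2.1).2.1), (ω i.1 i.2.1).2.2, x), rfl⟩
    else ι ⟨x0, h0⟩
  have _ : Nonempty (Fin (2 * T)) := ⟨⟨0, by omega⟩⟩
  refine (union_bd (fun q ω => q.1 ≠ q.2 ∧ c (F (f (G ω q.1))) = c (F (f (G ω q.2))))
    fun q ω => ?_).elim fun ω hω => ?_
  swap
  · refine ⟨G ω, fun x y => ?_, .inr fun x y p => by_contra fun c => hω (x, y) ⟨c, p⟩⟩
    simp only [Fintype.sum_prod_type (α₂ := Fin s × _), Fintype.sum_prod_type (α₂ := Fin (2 * T))]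
    rw [sum_congr rfl (g := fun _ => ∑ _ : Fin s, Λ * dist x.1 y.1 ^ 2) fun q _ =>
      sum_congr rfl fun j _ => by
        rw [sum_eq_single (ω q j).1 (fun b _ c => by simp [G, c, dd]) (by simp)]
        simp [G, L, g1]]
    simp [hT, hk, mul_assoc]
  let r := G ω q.1
  have a1 : ∀ o j b, G (Function.update ω q o) q.1 (q, j, b) =
      ι (if b = (o j).1 then bif (o j).2.2 then (o j).2.1.2 else (o j).2.1.1 else ⟨x0, h0⟩) :=
    fun o j b => by
    by_cases c : b = (o j).1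
    · refine Subtype.ext ?_
      simp only [G, c, Function.update_self, if_true, L, g2, ι]
      cases (o j).2.2 <;> rfl
    · simp [G, c]
  have a2 : ∀ o i, G (Function.update ω q o) q.1 i = r i ∨ (∃ x : X,
      (G (Function.update ω q o) q.1 i).1 = (x.1, 0, 0)) ∧ ∃ x : X, (r i).1 = (x.1, 0, 0) := by
    rintro o ⟨q', j, b⟩
    by_cases c : q' = q
    · subst c
      refine .inr ⟨⟨_, by rw [a1]⟩, ?_⟩
      have := a1 (ω q') j b
      rw [Function.update_eq_self] at this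
      exact ⟨_, by rw [show r _ = _ from this]⟩
    · exact .inl (by simp [G, r, c])
  let A : Fin s → Finset (Fin (2 * T) × (X × X) × Bool) := fun j =>
    univ.filter fun z => z.2.2 → K r (q, j, z.1) (ι z.2.1.1) (ι z.2.1.2)
  have a3 : ∀ j, (A j).card ≤ T * (4 * k - 1) := fun j => by
    have b1 := card_add_card_compl (A j)
    have b2 : (univ : Finset (Fin (2 * T))) ⊆ (A j)ᶜ.image (·.1) ∪ (univ.filter fun i =>
        (∃ x : X, (r i).1 = (x.1, 0, 0)) ∧ ∀ a b, K r i (ι a) (ι b)).image (·.2.2) := fun b _ => by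
      by_cases c : ∀ x y, K r (q, j, b) (ι x) (ι y)
      · refine mem_union_right _ (mem_image.2 ⟨(q, j, b), mem_filter.2 ⟨mem_univ _, ?_, c⟩, rfl⟩)
        have := a1 (ω q) j b
        rw [Function.update_eq_self] at this
        exact ⟨_, by rw [show r _ = _ from this]⟩
      · push Not at c
        obtain ⟨x, y, c⟩ := c
        exact mem_union_left _ (mem_image.2 ⟨(b, (x, y), true), by simp [A, c], rfl⟩)
    have b3 := (card_le_card b2).trans ((card_union_le ..).trans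
      (add_le_add card_image_le (card_image_le.trans (hc r).le)))
    rw [Fintype.card_prod, Fintype.card_prod (X × X), ← hk] at b1
    simp only [card_univ, Fintype.card_fin, Fintype.card_bool] at b1 b3
    rw [Nat.mul_sub_one]
    refine Nat.le_sub_of_add_le ?_
    nlinarith
  refine (Nat.mul_le_mul_right _ ((card_le_card_of_injOn (t := Fintype.piFinset A) (fun o j =>
    if K r (q, j, (o j).1) (ι (o j).2.1.1) (ι (o j).2.1.2) then o j else ((o j).1, (o j).2.1, false))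
    (fun o _ => ?_) fun o p o' p' hp => ?_).trans ((Fintype.card_piFinset A).trans_le
      (prod_le_pow_card _ _ _ fun j _ => a3 j)))).trans_lt ?_
  · refine mem_coe.2 (Fintype.mem_piFinset.2 fun j => mem_filter.2 ⟨mem_univ _, ?_⟩)
    beta_reduce
    split_ifs with c <;> simp [c]
  · have b1 : ∀ j, (o j).1 = (o' j).1 ∧ (o j).2.1 = (o' j).2.1 := fun j => by
      have := congrFun hp j
      constructor
      · simpa [apply_ite Prod.fst] using congrArg (·.1) this
      · simpa [apply_ite Prod.fst, apply_ite Prod.snd] using congrArg (·.2.1) this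
    obtain ⟨c0, c1⟩ := (mem_filter.1 p).2
    have c2 := (mem_filter.1 p').2.2
    have b2 : G (Function.update ω q o) q.2 = G (Function.update ω q o') q.2 := by
      ext1 ⟨q', j, b⟩
      by_cases c : q' = q
      · subst c
        simp only [G, Function.update_self, b1, L]
        split_ifs
        exacts [Subtype.ext (g3 _ (fun c => c0 (Subtype.ext c)) ..), rfl]
      · simp [G, c]
    rw [b2, ← c2] at c1
    ext1 j
    have d1 := (hK r _ _ (a2 o) (a2 o')).1 c1 (q, j, (o j).1)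
    have d2 := (hK r _ _ (a2 o') (a2 o)).1 c1.symm (q, j, (o j).1)
    have d3 := congrFun hp j
    simp only [a1, ← b1, if_true] at d1 d2 d3
    split_ifs at d3 with c
    · exact d3
    refine Prod.ext (b1 j).1 (Prod.ext (b1 j).2 ?_)
    cases e1 : (o j).2.2 <;> cases e2 : (o' j).2.2 <;> rw [e1, e2] at d1 d2
    exacts [absurd d1 c, absurd d2 c]
  · rw [Fintype.card_fun, Fintype.card_prod (Fin _), Fintype.card_prod (X × X), ← hk]
    simp only [card_univ, Fintype.card_fin, Fintype.card_bool]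
    rw [show 2 * T * (k * 2) = T * (4 * k) by ring, mul_pow T, mul_pow T, mul_assoc]
    exact mul_lt_mul_of_pos_left hs (by positivity)

end Pool.Agent.H.BS
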