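import Pool.Agent.H.BS.R

set_option autoImplicit false

namespace Pool.Agent.H.BS

open Equiv AddMonoidAlgebra

noncomputable def mo {M : Type} (p : M) : AddMonoidAlgebra ℤ M := single p 1

noncomputable def io {M : Type} (A : Multiset M) : AddMonoidAlgebra ℤ M := (A.map mo).sum

lemma mo_add {M : Type} [AddCommMonoid M] (p q : M) : mo (p + q) = mo p * mo q := by
  simp [mo, single_mul_single]

lemma io_inj {M : Type} {A B : Multiset M} (h : io A = io B) : A = B := by
  classical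
  have : ∀ (A : Multiset M) a, (io A).coeff a = A.count a := fun A a => by
    induction A using Multiset.induction_on with
    | empty => simp [io]
    | cons b A ih =>
      simp only [io, Multiset.map_cons, Multiset.sum_cons, Multiset.count_cons] at ih ⊢
      rw [coeff_add, Finsupp.add_apply, ih]
      simp [mo, Finsupp.single_apply, eq_comm, add_comm]
  ext a
  exact_mod_cast (this A a).symm.trans (h ▸ this B a)

lemma md_mo {M N : Type} [AddCommMonoid M] [AddCommMonoid N] (f : M →+ N) (p : M) :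
    mapDomainRingHom ℤ f (mo p) = mo (f p) := by simp [mo]

lemma md_io {M N : Type} [AddCommMonoid M] [AddCommMonoid N] (f : M →+ N) (A : Multiset M) :
    mapDomainRingHom ℤ f (io A) = io (A.map f) := by
  simp only [io, map_multiset_sum, Multiset.map_map, Function.comp_def, md_mo]

abbrev Rg := AddMonoidAlgebra ℤ (ℤ × ℤ)

def cs (A : Multiset (ℤ × ℤ)) : ℕ := (A.map fun p => p.2.natAbs).sum

def Gd (X : Rg) (p m : ℕ) : Prop := ∃ A B, X = io A - io B ∧ cs A = p ∧ cs B = m

lemma Gd.add {X Y : Rg} {p m p' m' : ℕ} : Gd X p m → Gd Y p' m' → Gd (X + Y) (p + p') (m + m') := by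
  rintro ⟨A, B, rfl, rfl, rfl⟩ ⟨A', B', rfl, rfl, rfl⟩
  exact ⟨A + A', B + B', by simp only [io, Multiset.map_add, Multiset.sum_add]; ring,
    by simp [cs], by simp [cs]⟩

lemma Gd.neg {X : Rg} {p m : ℕ} : Gd X p m → Gd (-X) m p := by
  rintro ⟨A, B, rfl, rfl, rfl⟩
  exact ⟨B, A, by ring, rfl, rfl⟩

lemma Gd.sum {X : ℕ → Rg} {p m : ℕ} (h : ∀ i, Gd (X i) p m) (n : ℕ) :
    Gd (∑ i ∈ Finset.range n, X i) (n * p) (n * m) := by
  induction n with
  | zero => exact ⟨0, 0, by simp, by simp [cs], by simp [cs]⟩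
  | succ n ih => rw [Finset.sum_range_succ, Nat.succ_mul, Nat.succ_mul]; exact ih.add (h n)

lemma Gd.shift {X : Rg} {p m : ℕ} (i : ℤ) : Gd X p m → Gd (mo (i, 0) * X) p m := by
  rintro ⟨A, B, rfl, rfl, rfl⟩
  have : ∀ A, io (A.map ((i, 0) + ·)) = mo (i, (0 : ℤ)) * io A := fun A => by
    simp only [io, Multiset.map_map, Function.comp_def, mo_add, Multiset.sum_map_mul_left]
  exact ⟨A.map ((i, 0) + ·), B.map ((i, 0) + ·), by rw [this, this, mul_sub], by simp [cs], by simp [cs]⟩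

def dil (M : ℕ) : ℤ × ℤ →+ ℤ × ℤ := (AddMonoidHom.id ℤ).prodMap (AddMonoidHom.mulLeft (M : ℤ))

lemma Gd.dil {X : Rg} {p m : ℕ} (M : ℕ) :
    Gd X p m → Gd (mapDomainRingHom ℤ (dil M) X) (M * p) (M * m) := by
  rintro ⟨A, B, rfl, rfl, rfl⟩
  have : ∀ A, cs (A.map (BS.dil M)) = M * cs A := fun A => by
    simp [cs, BS.dil, Int.natAbs_mul, Multiset.sum_map_mul_left]
  exact ⟨_, _, by rw [map_sub, md_io, md_io], this A, this B⟩

lemma gd_ex (X : Rg) : ∃ p m, Gd X p m := by
  induction X using AddMonoidAlgebra.induction_linear with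
  | zero => exact ⟨_, _, 0, 0, by simp, rfl, rfl⟩
  | add _ _ a b => obtain ⟨_, _, a⟩ := a; obtain ⟨_, _, b⟩ := b; exact ⟨_, _, a.add b⟩
  | single p r =>
    refine ⟨_, _, Multiset.replicate r.toNat p, Multiset.replicate (-r).toNat p, ?_, rfl, rfl⟩
    simp only [io, Multiset.map_replicate, Multiset.sum_replicate, mo, smul_single, nsmul_eq_mul,
      mul_one, ← single_sub, Int.toNat_sub_toNat_neg]

lemma mk_mo (u : ℤ × ℤ) (n : ℤ) : Ideal.Quotient.mk (Ideal.span {mo u - 1}) (mo (n • u)) = 1 := by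
  have h : Ideal.Quotient.mk (Ideal.span {mo u - 1}) (mo u) = 1 := by
    rw [← sub_eq_zero, ← map_one (Ideal.Quotient.mk _), ← map_sub, Ideal.Quotient.eq_zero_iff_mem]
    exact Ideal.mem_span_singleton_self _
  induction n using Int.induction_on with
  | zero => rw [zero_smul]; exact map_one (Ideal.Quotient.mk _)
  | succ n ih => rw [add_smul, one_smul, mo_add, map_mul, ih, h, mul_one]
  | pred n ih => rw [← ih, ← sub_add_cancel (-(n : ℤ)) 1, add_smul, one_smul, mo_add, map_mul, h,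
      mul_one, add_sub_cancel_right]

lemma rich (k S : ℕ) : ∃ G p m, Gd ((mo (0, 1) - 1) ^ (k + 2) * G) p m ∧ S * p < m := by
  induction k generalizing S with
  | zero =>
    refine ⟨-mo (0, -1), 0, 2, ⟨{0, 0}, {(0, 1), (0, -1)}, ?_, rfl, rfl⟩, by simp⟩
    have h : (mo (0, 1) * mo (0, -1) : Rg) = 1 := by rw [← mo_add]; rfl
    have : (mo 0 : Rg) = 1 := rfl
    simp only [io, Multiset.insert_eq_cons, Multiset.map_cons, Multiset.map_singleton,
      Multiset.sum_cons, Multiset.sum_singleton, this]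
    linear_combination (2 - mo (0, 1)) * h
  | succ k ih =>
    obtain ⟨G, p, m, h, hS⟩ := ih (2 * S)
    let M := 2 * S + 1
    have e : mapDomainRingHom ℤ (dil M) (mo (0, 1)) = mo (0, 1) ^ M := by
      rw [md_mo]; simp [dil, mo, single_pow]
    obtain ⟨G', hG⟩ : (mo (0, 1) - 1 : Rg) ∣ (M : Rg) ^ (k + 2) * G -
        (∑ i ∈ Finset.range M, mo (0, 1) ^ i) ^ (k + 2) * mapDomainRingHom ℤ (dil M) G := by
      have h1 := mk_mo (0, 1) 1
      rw [one_smul] at h1
      have h2 : ∀ G : Rg, Ideal.Quotient.mk (Ideal.span {mo ((0, 1) : ℤ × ℤ) - 1})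
          (mapDomainRingHom ℤ (dil M) G) = Ideal.Quotient.mk _ G := fun G => by
        obtain ⟨_, _, A, B, rfl, -⟩ := gd_ex G
        have : ∀ q : ℤ × ℤ, Ideal.Quotient.mk (Ideal.span {mo ((0, 1) : ℤ × ℤ) - 1})
            (mo (dil M q)) = Ideal.Quotient.mk _ (mo q) := fun q => by
          rw [show dil M q = q + ((M - 1) * q.2) • (0, 1) by ext <;> simp [dil]; ring, mo_add,
            map_mul, mk_mo, mul_one]
        simp only [map_sub, io, map_multiset_sum, Multiset.map_map, Function.comp_def, md_mo, this]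
      rw [← Ideal.mem_span_singleton, ← Ideal.Quotient.eq_zero_iff_mem, map_sub, map_mul, map_mul, h2]
      simp [h1]
    refine ⟨G', _, _, ?_, (?_ : S * (M ^ (k + 2) * p + M * m) < M ^ (k + 2) * m + M * p)⟩
    · convert (Gd.sum (fun _ => h) (M ^ (k + 2))).add (h.dil M).neg using 1
      rw [pow_succ, mul_assoc, ← hG]
      simp only [map_mul, map_pow, map_sub, map_one, e, ← mul_geom_sum, Finset.sum_const,
        Finset.card_range, nsmul_eq_mul, Nat.cast_pow, mul_pow]
      ring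
    · obtain ⟨N, hN, e⟩ : ∃ N, M ≤ N ∧ M ^ (k + 2) = M * N :=
        ⟨M ^ (k + 1), Nat.le_self_pow (by simp) _, by ring⟩
      rw [e]
      have h1 : S * (N * p + m) < N * m := by
        have := Nat.mul_le_mul_left N hS.le
        have := Nat.mul_le_mul_right m hN
        simp only [M] at *
        nlinarith
      have := Nat.mul_lt_mul_of_pos_left h1 (show 0 < M by simp [M])
      nlinarith

lemma ghost (T : Finset ℤ) (S : ℕ) : ∃ A B : Multiset (ℤ × ℤ), S * cs A < cs B ∧
    ∀ l ∈ T, A.map (fun p => p.1 + l * p.2) = B.map fun p => p.1 + l * p.2 := by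
  obtain ⟨G, p, m, h, hS⟩ := rich T.card (S + 1)
  rw [pow_add, mul_assoc] at h
  generalize (mo (0, 1) - 1) ^ 2 * G = G at h
  obtain ⟨H, hH⟩ : (mo (1, 0) - 1 : Rg) ∣ (∏ l ∈ T, (mo (0, 1) - mo (l, 0))) * G -
      (mo (0, 1) - 1) ^ T.card * G := by
    have : ∀ l : ℤ, Ideal.Quotient.mk (Ideal.span {mo ((1, 0) : ℤ × ℤ) - 1}) (mo (l, 0)) = 1 :=
      fun l => by simpa using mk_mo (1, 0) l
    rw [← Ideal.mem_span_singleton, ← Ideal.Quotient.eq_zero_iff_mem]
    simp [this]
  obtain ⟨p', m', h'⟩ := gd_ex H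
  let n := S * (p' + m') + 1
  have e : ∀ i : ℕ, (mo ((i : ℤ), 0) : Rg) = mo (1, 0) ^ i := fun i => by simp [mo, single_pow]
  obtain ⟨A, B, h1, h2, h3⟩ :=
    (Gd.sum (fun i => h.shift (i : ℕ)) n).add ((h'.shift n).add h'.neg)
  refine ⟨A, B, ?_, fun l hl => io_inj ?_⟩
  · rw [h2, h3]
    have := Nat.mul_le_mul_left n hS
    simp only [n] at *
    nlinarith
  · let f : ℤ × ℤ →+ ℤ := AddMonoidHom.fst ℤ ℤ + (AddMonoidHom.mulLeft l).comp (AddMonoidHom.snd ℤ ℤ)
    have h4 : io A - io B = (∑ i ∈ Finset.range n, mo (1, 0) ^ i) *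
        ((∏ l ∈ T, (mo (0, 1) - mo (l, 0))) * G) := by
      rw [← h1, sub_eq_iff_eq_add.1 hH, mul_add, ← mul_assoc _ (_ - _) H, geom_sum_mul]
      simp only [e, ← Finset.sum_mul]
      ring
    have := congrArg (mapDomainRingHom ℤ f) h4
    rw [map_sub, md_io, md_io, map_mul, map_mul, map_prod,
      Finset.prod_eq_zero hl (by rw [map_sub, md_mo, md_mo]; simp [f]), zero_mul, mul_zero, sub_eq_zero] at this
    exact this

lemma ms_perm {I C : Type} [Fintype I] {a b : I → C}
    (h : Finset.univ.val.map a = Finset.univ.val.map b) : ∃ σ : Perm I, ∀ i, a i = b (σ i) := by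
  classical
  refine ⟨Equiv.ofFiberEquiv fun c => Fintype.equivOfCardEq ?_, fun i =>
    (Equiv.ofFiberEquiv_map _ i).symm⟩
  have := congrArg (Multiset.count c) h
  rw [Multiset.count_map, Multiset.count_map] at this
  simp only [Fintype.card_subtype, eq_comm (b := c)]
  exact this

lemma ghost' (r S : ℕ) : ∃ (n : ℕ) (a : Bool → Fin n → ℤ × ℤ),
    S * ∑ e, (a true e).2.natAbs < ∑ e, (a false e).2.natAbs ∧ ∀ l : Finset.Icc (-r : ℤ) r,
      ∃ σ : Perm (Fin n), ∀ e, (a true e).1 + l * (a true e).2 =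
        (a false (σ e)).1 + l * (a false (σ e)).2 := by
  obtain ⟨A, B, h, h'⟩ := ghost (Finset.Icc (-r : ℤ) r) S
  have e : A.card = B.card := by simpa using congrArg Multiset.card (h' 0 (by simp))
  have : ∀ (A : Multiset (ℤ × ℤ)) n, A.card = n → ∃ a : Fin n → ℤ × ℤ, Finset.univ.val.map a = A := by
    rintro ⟨l⟩ _ rfl
    exact ⟨l.get, (Fin.univ_val_map l.get).trans (congrArg _ (List.ofFn_get l))⟩
  generalize hn : B.card = n at e
  obtain ⟨a, rfl⟩ := this A _ e
  obtain ⟨b, rfl⟩ := this B _ hn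
  refine ⟨_, fun s => bif s then a else b, ?_, fun l => ms_perm (a := fun e => (a e).1 + l * (a e).2)
    (b := fun e => (b e).1 + l * (b e).2) ?_⟩
  · simp only [cs, Multiset.map_map] at h
    exact h
  · have := h' l l.2
    simp only [Multiset.map_map] at this
    exact this

/-- monochromatic boxes generated by disjointly supported vectors of fixed 1-norm -/
theorem box (r t k : ℕ) : ∃ d n : ℕ, 0 < d ∧ ∀ c : (Fin n → ℤ) → Fin k,
    ∃ u : Fin t → Fin n → ℤ, (∀ i i', i ≠ i' → ∀ j, u i j = 0 ∨ u i' j = 0) ∧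
      (∀ i, ∑ j, |u i j| = d) ∧ ∃ x : Fin n → ℤ, ∀ l : Fin t → ℤ, (∀ i, |l i| ≤ r) →
        c (x + ∑ i, l i • u i) = c x := by
  classical
  obtain ⟨ι, _, hι⟩ := Combinatorics.Line.exists_mono_in_high_dimension
    (Fin t → Finset.Icc (-r : ℤ) r) (Fin k)
  obtain ⟨n0, a, ha, hσ⟩ := ghost' r (Fintype.card ι + 1)
  choose σ hσ using hσ
  set p := ∑ e, (a true e).2.natAbs with hp
  obtain ⟨N, hN⟩ := Nat.exists_eq_add_of_lt
    (show p < ∑ e, (a false e).2.natAbs by nlinarith [Nat.zero_le (Fintype.card ι * p)])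
  let vl : Bool × Fin n0 × Finset.Icc (-r : ℤ) r → ℤ := fun q =>
    (a q.1 q.2.1).1 + q.2.2 * (a q.1 q.2.1).2
  obtain ⟨d, hd, h⟩ := block (A := Set.range vl) (((ι × Fin (N + 1)) × Fin t) × Fin n0)
  obtain ⟨M, _, hM⟩ := h (Fin k)
  let e := Fintype.equivFin M
  refine ⟨d * ((N + 1) * (p + N + 1)), Fintype.card M, by positivity, fun c => ?_⟩
  obtain ⟨g, g1, g2⟩ := hM fun w => c fun j => w (e.symm j)
  let X : (ι × Fin (N + 1) → Bool) → (ι → Fin t → Finset.Icc (-r : ℤ) r) →
      ((ι × Fin (N + 1)) × Fin t) × Fin n0 → Set.range vl := fun s ω q =>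
    ⟨_, (s q.1.1, q.2, ω q.1.1.1 q.1.2), rfl⟩
  obtain ⟨L, col, hL⟩ := hι fun ω => c fun j => (ev g (X (fun _ => false) ω) (e.symm j)).1
  let Act : Finset (ι × Fin (N + 1)) := Finset.univ.filter fun q => L.idxFun q.1 = none
  obtain ⟨s, hs, hs'⟩ : ∃ s, s + 1 ≤ Fintype.card ι ∧ Act.card = (s + 1) * (N + 1) := by
    obtain ⟨s, hs⟩ := Nat.exists_eq_succ_of_ne_zero (Finset.card_ne_zero.2 (L.proper.imp
      (q := (· ∈ Finset.univ.filter fun i => L.idxFun i = none)) fun i h => by simpa using h))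
    refine ⟨s, hs.ge.trans (Finset.card_le_univ _), ?_⟩
    rw [show Act = (Finset.univ.filter fun i => L.idxFun i = none) ×ˢ Finset.univ by
      ext; simp [Act], Finset.card_product, hs]
    simp
  obtain ⟨Ch, c1, c2⟩ := Finset.exists_subset_card_eq (s := Act) (n := s * (p + N + 1)) (by
    rw [hs']
    rw [hN] at ha
    nlinarith [Nat.mul_le_mul_right p hs])
  let Y := fun l => X (fun q => decide (q ∈ Ch)) (L l)
  have hY : ∀ l, c (fun j => (ev g (Y l) (e.symm j)).1) = col := fun l => by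
    rw [← hL l]
    refine (g2 _ _ ⟨Equiv.prodCongrRight fun q => if q.1 ∈ Ch then σ (L l q.1.1 q.2) else 1, ?_⟩).symm
    ext ⟨q, i⟩
    by_cases hq : q.1 ∈ Ch <;> simp [Y, X, vl, hq, hσ]
  let φ : Fin t → ((ι × Fin (N + 1)) × Fin t) × Fin n0 → ℤ := fun i q =>
    if q.1.2 = i ∧ q.1.1 ∈ Act then (a (decide (q.1.1 ∈ Ch)) q.2).2 else 0
  refine ⟨fun i j => (g (e.symm j)).elim (φ i) 0, fun i i' hi j => ?_, fun i => ?_,
    fun j => (ev g (Y fun _ => ⟨0, by simp⟩) (e.symm j)).1, fun l hl => ?_⟩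
  · dsimp only
    rcases g (e.symm j) with q | _
    · by_cases h : q.1.2 = i
      · exact .inr (if_neg fun h' => hi (h.symm.trans h'.1))
      · exact .inl (if_neg fun h' => h h'.1)
    · exact .inl rfl
  · have h1 : ∑ q, (φ i q).natAbs = (N + 1) * (p + N + 1) := by
      have : ∀ q : ι × Fin (N + 1), ∑ i', ∑ y, (φ i ((q, i'), y)).natAbs =
          if q ∈ Ch then p else if q ∈ Act then p + N + 1 else 0 := fun q => by
        rw [Finset.sum_eq_single i (fun b _ hb => by simp [φ, hb]) (by simp)]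
        by_cases h : q ∈ Ch
        · simp [φ, h, c1 h, hp]
        · by_cases h' : q ∈ Act <;> simp [φ, h, h', hN]
      rw [Fintype.sum_prod_type, Fintype.sum_prod_type, Finset.sum_congr rfl fun q _ => this q,
        ← Finset.sum_subset (Finset.subset_univ Act) fun q _ h => by simp [h, mt (@c1 q) h],
        ← Finset.sum_sdiff c1, Finset.sum_congr rfl (g := fun _ => p + N + 1) fun q h => by
          simp_all, Finset.sum_congr (s₁ := Ch) rfl (g := fun _ => p) fun q h => by simp [h]]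
      have := Finset.card_sdiff_add_card_eq_card c1
      simp only [Finset.sum_const, smul_eq_mul]
      rw [c2, hs'] at this
      rw [c2]
      zify at this ⊢
      linear_combination (p + N + 1 : ℤ) * this
    rw [← h1, ← g1, sm, ← e.symm.sum_comp, Nat.cast_sum]
    refine Finset.sum_congr rfl fun j _ => ?_
    dsimp only
    cases g (e.symm j) <;> simp
  · rw [hY, ← hY fun i => ⟨l i, by simpa [abs_le] using hl i⟩]
    congr 1
    ext j
    simp only [Pi.add_apply, Finset.sum_apply, Pi.smul_apply, ev]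
    rcases g (e.symm j) with q | _
    · rw [Finset.sum_eq_single q.1.2 (fun b _ hb => by simp [φ, hb.symm]) (by simp)]
      rcases h : L.idxFun q.1.1.1 with _ | y <;> simp [φ, Y, X, vl, Act, h]
    · simp

end Pool.Agent.H.BS
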