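import Pool.Agent.H.BS.K
import Pool.Agent.H.BS.L

set_option autoImplicit false

namespace Pool.Agent.H.BS

open Finset Equiv Function

variable {W : Type} {δ : W → W → ℝ} {E : W → W → Prop}

def Lc (δ : W → W → ℝ) (g : Fin 3 → W) : Prop := ∀ k l, δ (g k) (g l) = 96 * ((k : ℝ) - l) ^ 2

def MR (φ : Fin 3 → ℝ) : Prop := (φ 0 = φ 1 ∧ φ 1 = φ 2) ∨ (φ 0 ≠ φ 1 ∧ φ 1 ≠ φ 2 ∧ φ 0 ≠ φ 2)

theorem three [Finite W] (e : Equivalence E) (h : RI W δ E) (h0 : ∀ a, δ a a = 0) {V : Type}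
    [Finite V] (A : V → W → Prop) (ρ : V → W) (a1 : ∀ v, A v (ρ v)) (a2 : ∀ v a, A v a → E a (ρ v))
    (net : ∀ φ : V → ℝ, ∃ (T : Fin 3 → V) (g : Fin 3 → W), Lc δ g ∧ (∀ k, A (T k) (g k)) ∧
      MR fun k => φ (T k))
    (gad : ∀ v (κ : W → ℝ), (∀ a b, A v a → A v b → κ a = κ b) ∨ ∀ q : Fin 3,
      ∃ g : Bool → Fin 3 → W, (∀ s, Lc δ (g s) ∧ E (g s 0) (ρ v) ∧ E (g s 2) (ρ v)) ∧
        κ (g false (![0, 2, 0] q)) ≠ κ (g true (![0, 2, 0] q)) ∧
        g false (![1, 1, 2] q) = g true (![1, 1, 2] q)) :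
    ∃ n : ℕ, ∀ χ : EuclideanSpace ℝ (Fin n) → ℝ, ∃ a b c : EuclideanSpace ℝ (Fin n),
      dist a b = 1 ∧ dist b c = 1 ∧ dist a c = 2 ∧
        ((χ a = χ b ∧ χ b = χ c) ∨ (χ a ≠ χ b ∧ χ b ≠ χ c ∧ χ a ≠ χ c)) := by
  classical
  obtain ⟨d, hd, hb⟩ := block (A := V × Bool) (Fin 3 × Bool)
  obtain ⟨M, _, hM⟩ := hb (Fin (d + 1))
  obtain ⟨N, _, hN⟩ := h.can e M
  let ε := (Fintype.equivFin N).symm
  refine ⟨Fintype.card N, fun χ => ?_⟩
  let F : (N → ℝ) → EuclideanSpace ℝ (Fin (Fintype.card N)) := fun v =>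
    WithLp.toLp 2 fun i => v (ε i) / √(d * 6 * 96)
  obtain ⟨f, f1, hK⟩ := hN fun v => χ (F v)
  set c := fun u => χ (F (f u)) with hc
  have C : ∀ r u v : M → W, (∀ i, E (u i) (r i)) → (∀ i, E (v i) (r i)) →
      (c u = c v ↔ ∀ i, c (update r i (u i)) = c (update r i (v i))) := fun r u v p q => by
    obtain ⟨K, hK⟩ := hK r
    have b : ∀ (u : M → W) i, (∀ i, E (u i) (r i)) → ∀ j, E (update r i (u i) j) (r j) :=
      fun u i p j => by
      by_cases c : j = i
      · simpa [c] using p i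
      · simpa [c] using e.refl _
    refine (hK u v p q).trans (forall_congr' fun i => ((hK _ _ (b u i p) (b v i q)).trans
      ⟨fun h => by simpa using h i, fun h j => ?_⟩).symm)
    by_cases c : j = i
    · simpa [c] using h
    · simpa [c] using (hK r r (fun _ => e.refl _) fun _ => e.refl _).1 rfl j
  let NF : (M → V) → M → Prop := fun π i => ¬∀ a b, A (π i) a → A (π i) b →
    c (update (ρ ∘ π) i a) = c (update (ρ ∘ π) i b)
  obtain ⟨g, g1, g2⟩ := hM fun w => Fin.ofNat (d + 1)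
    (univ.filter fun i => (w i).2 ∧ NF (fun i => (w i).1) i).card
  let π : V → M → V := fun v i => (g i).elim (fun _ => v) (·.1)
  suffices ∃ U : M → Fin 3 → W, (∀ i, (g i).elim (fun _ => Lc δ (U i)) fun _ => ∀ k l, U i k = U i l) ∧
      MR fun k => c fun i => U i k by
    obtain ⟨U, a, b⟩ := this
    have : ∀ k l : Fin 3, dist (F (f fun i => U i k)) (F (f fun i => U i l)) = |(k : ℝ) - l| :=
      fun k l => by
      rw [← sq_eq_sq₀ dist_nonneg (abs_nonneg _), EuclideanSpace.dist_sq_eq]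
      simp only [F, Real.dist_eq, sq_abs, ← sub_div, div_pow, ← sum_div,
        Real.sq_sqrt (show (0 : ℝ) ≤ d * 6 * 96 by positivity)]
      have s : ((sm g 1 : ℕ) : ℝ) = d * 6 := by simp [g1]
      rw [ε.sum_comp fun n => (f _ n - f _ n) ^ 2, f1, div_eq_iff (by positivity), ← s, sm,
        Nat.cast_sum, sum_mul, mul_sum]
      refine sum_congr rfl fun i _ => ?_
      have := a i
      rcases hi : g i with j | j <;> rw [hi] at this
      · simp [this k l, mul_comm]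
      · simp [this k l, h0]
    exact ⟨_, _, _, by rw [this]; simp, by rw [this]; norm_num, by rw [this]; simp, b⟩
  by_cases hn : ∀ v i j, g i = .inl j → ¬NF (π v) i
  · obtain ⟨T, G, t1, t2, t3⟩ := net fun v => c (ρ ∘ π v)
    refine ⟨fun i k => (g i).elim (fun _ => G k) fun x => ρ x.1, fun i => by
      beta_reduce; cases g i <;> simp [t1], ?_⟩
    convert t3 using 2 with k
    refine (C _ _ _ (fun i => ?_) fun i => e.refl _).2 fun i => ?_
    · simp only [π, comp_apply]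
      cases g i
      exacts [a2 _ _ (t2 k), e.refl _]
    · rcases hi : g i with j | j
      · exact not_not.1 (hn _ i j hi) _ _ (by simpa [π, hi] using t2 k) (a1 _)
      · simp [π, hi]
  obtain ⟨v, i0, j0, b1, b2⟩ : ∃ v i j, g i = .inl j ∧ NF (π v) i := by
    simpa only [not_forall, not_not, exists_prop] using hn
  have b3 : ∀ j, ∃ i, g i = .inl j ∧ NF (π v) i := fun j => by
    let n := fun j => (univ.filter fun i => g i = .inl j ∧ NF (π v) i).card
    have n1 : ∀ j, n j < d + 1 := fun j => by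
      have := g1 (Pi.single j 1)
      rw [sum_pi_single', if_pos (mem_univ _), mul_one] at this
      rw [Nat.lt_succ_iff, ← this, sm]
      refine (card_filter ..).trans_le (sum_le_sum fun i _ => ?_)
      split_ifs with c <;> simp [c]
    have n2 : ∀ j, (univ.filter fun i => (ev g (fun x => (v, decide (x = j))) i).2 ∧
        NF (fun i => (ev g (fun x => (v, decide (x = j))) i).1) i).card =
        (univ.filter fun i => (∃ x, g i = .inr (x, true)) ∧ NF (π v) i).card + n j := fun j => by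
      rw [show (fun i => (ev g (fun x => (v, decide (x = j))) i).1) = π v by
        ext i; simp only [ev, π]; cases g i <;> rfl]
      simp only [n, card_filter, ← sum_add_distrib, ev]
      refine sum_congr rfl fun i _ => ?_
      rcases g i with x | ⟨x, s⟩ <;> simp
    have := g2 (fun x => (v, decide (x = j))) (fun x => (v, decide (x = j0)))
      ⟨swap j j0, by ext x <;> simp [swap_apply_eq_iff]⟩
    rw [n2, n2, Fin.ext_iff, Fin.val_ofNat, Fin.val_ofNat] at this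
    have := (Nat.ModEq.add_left_cancel' _ this).eq_of_lt_of_lt (n1 _) (n1 _)
    obtain ⟨i, hi⟩ := card_pos.1 (this ▸ card_pos.2 ⟨i0, mem_filter.2 ⟨mem_univ _, b1, b2⟩⟩ : 0 < n j)
    exact ⟨i, (mem_filter.1 hi).2⟩
  choose ι b3 b4 using b3
  have b5 : ∀ j, π v (ι j) = v := fun j => by simp [π, b3]
  choose γ c1 c2 c3 using fun j : Fin 3 × Bool => (gad v fun a =>
    c (update (ρ ∘ π v) (ι j) a)).resolve_left (by simpa [NF, b5] using b4 j) j.1
  let U : (Fin 3 → Bool → Bool) → Fin 3 → M → W := fun ω k i =>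
    (g i).elim (fun j => γ j (if i = ι j then ω j.1 j.2 else false) k) fun x => ρ x.1
  refine (union_bd (fun q ω => c (U ω (![0, 2, 0] q)) = c (U ω (![1, 1, 2] q))) fun q ω => ?_).elim
    fun ω hω => ⟨fun i k => U ω k i, fun i => ?_, .inr ⟨hω 0, Ne.symm (hω 1), hω 2⟩⟩
  · refine (Nat.mul_le_mul_right _ (card_le_one.2 fun o p o' p' => ?_)).trans_lt (by simp)
    have d1 : U (update ω q o) (![1, 1, 2] q) = U (update ω q o') (![1, 1, 2] q) := by
      ext i
      simp only [U]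
      rcases g i with ⟨q', j⟩ | j
      · by_cases c : q' = q
        · have : ∀ s, γ (q', j) s (![1, 1, 2] q) = γ (q', j) false (![1, 1, 2] q) := fun s => by
            cases s
            exacts [rfl, c ▸ (c3 (q', j)).symm]
          simp only [Sum.elim_inl, this]
        · simp [c]
      · rfl
    have d2 : ∀ ω i, E (U ω (![0, 2, 0] q) i) ((ρ ∘ π v) i) := fun ω i => by
      simp only [U, π, comp_apply]
      cases g i
      · fin_cases q
        exacts [(c1 _ _).2.1, (c1 _ _).2.2, (c1 _ _).2.1]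
      · exact e.refl _
    have := (C _ _ _ (d2 _) (d2 _)).1 ((mem_filter.1 p).2.trans (d1 ▸ (mem_filter.1 p').2.symm))
    ext j
    have := this (ι (q, j))
    simp only [U, b3, Sum.elim_inl, if_true, update_self] at this
    cases e1 : o j <;> cases e2 : o' j <;> rw [e1, e2] at this
    exacts [absurd this (c2 (q, j)), absurd this.symm (c2 (q, j))]
  · simp only [U]
    cases g i <;> simp [c1]

lemma RI.words {F J : Type} [Finite F] [Fintype J] (ψ : F → J → ℝ) :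
    RI F (fun x y => ∑ j, (ψ x j - ψ y j) ^ 2) fun x y => ∃ σ : Perm J, ∀ j, ψ x (σ j) = ψ y j := by
  have _ : Finite (Set.range (uncurry ψ)) := (Set.finite_range _).to_subtype
  have h0 : RI (Set.range (uncurry ψ)) (fun a b => (a.1 - b.1) ^ 2) Eq :=
    fun C _ => ⟨Unit, inferInstance, fun c => ⟨fun a _ => a, by simp, by simp⟩⟩
  exact (h0.sym eq_equivalence (by simp) J).sub (fun x j => ⟨_, (x, j), rfl⟩) one_pos (by simp)
    fun x y ⟨σ, h⟩ => ⟨σ, fun j => Subtype.ext (h j)⟩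

lemma sum_via {I J : Type} [Fintype I] [Fintype J] (ι : I ↪ J) (X : J → ℝ) (α β : Perm I) :
    ∑ j, (X (α.viaEmbedding ι j) - X (β.viaEmbedding ι j)) ^ 2 =
      ∑ k, (X (ι (α k)) - X (ι (β k))) ^ 2 := by
  rw [← sum_subset (subset_univ (univ.map ι)) fun j _ h => by
    simp [Perm.viaEmbedding_apply_of_notMem _ _ j (by simpa using h)]]
  simp [Perm.viaEmbedding_apply]

def w0 (v : Fin 13) (j : Fin 18 × Bool) : ℤ := (if j.1.1 < v then 3 else 1) * bif j.2 then 1 else -1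

def X0 (a b : Fin 13) (s : Bool) (j : Fin 18 × Bool) : ℤ :=
  if b ≤ j.1.1 ∧ j.1.1 < b + 12 then (if (j.1.1 < a) = s then 3 else -1) * bif j.2 then 1 else -1
  else w0 b j

set_option synthInstance.maxSize 1024 in
lemma net0 : ∀ a b c : Fin 13, b ≤ a → b ≤ c → a.1 + c = 2 * b + 12 →
    univ.val.map (X0 a b true) = univ.val.map (w0 a) ∧
    univ.val.map (X0 a b false) = univ.val.map (w0 c) ∧
    (∀ j, X0 a b true j + X0 a b false j = 2 * w0 b j) ∧
    ∑ j, (X0 a b true j - X0 a b false j) ^ 2 = 384 := by decide +kernel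

lemma net1 (φ : Fin 13 → ℝ) : ∃ a b c : Fin 13, b ≤ a ∧ b ≤ c ∧ a.1 + c = 2 * b + 12 ∧
    MR ![φ a, φ b, φ c] := by
  by_contra! h
  simp only [MR, Matrix.cons_val] at h
  have := h 0 0 12; have := h 1 0 11; have := h 2 0 10; have := h 2 1 12; have := h 4 0 8
  have := h 4 1 10; have := h 4 2 12; have := h 5 2 11; have := h 6 0 6; have := h 6 1 8
  have := h 6 2 10; have := h 8 4 12; have := h 10 5 12; have := h 11 5 11; have := h 12 6 12
  clear h
  simp only [Fin.le_def, Fin.coe_ofNat_eq_mod, Nat.reduceMod, Nat.reduceLeDiff, Nat.reduceAdd,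
    Nat.reduceMul, forall_const, le_refl, zero_le] at *
  grind (splits := 40)

abbrev J0 := Fin 18 × Bool

abbrev J1 := J0 ⊕ (Fin 13 × J0 × J0) × Fin 5

noncomputable def w1 (v : Fin 13) : J1 → ℝ := Sum.elim (fun j => w0 v j) fun j =>
  let p : ℝ := w0 j.1.1 j.1.2.1
  let q : ℝ := w0 j.1.1 j.1.2.2
  ![(p + q) / 2, (p + q) / 2, 0, √(192 - (p - q) ^ 2), √(192 - (p - q) ^ 2 / 2)] j.2

noncomputable def Ψ (q : (Fin 13 × Perm J1) × Fin 13 × Perm J1) (j : J1) : ℝ :=
  (w1 q.1.1 (q.1.2 j) + w1 q.2.1 (q.2.2 j)) / 2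

/-- three equally spaced collinear points are canonically Ramsey -/
theorem line3 : ∃ n : ℕ, ∀ χ : EuclideanSpace ℝ (Fin n) → ℝ, ∃ a b c : EuclideanSpace ℝ (Fin n),
    dist a b = 1 ∧ dist b c = 1 ∧ dist a c = 2 ∧
      ((χ a = χ b ∧ χ b = χ c) ∨ (χ a ≠ χ b ∧ χ b ≠ χ c ∧ χ a ≠ χ c)) := by
  have _ : Finite (Set.range Ψ) := (Set.finite_range _).to_subtype
  let P : Fin 13 × Perm J1 → Fin 13 × Perm J1 → Set.range Ψ := fun x z => ⟨_, (x, z), rfl⟩
  have hL : ∀ x z : Fin 13 × Perm J1, ∑ j, (w1 x.1 (x.2 j) - w1 z.1 (z.2 j)) ^ 2 = 384 →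
      Lc (fun x y : Set.range Ψ => ∑ j, (x.1 j - y.1 j) ^ 2) ![P x x, P x z, P z z] :=
    fun x z h k l => by
    have : ∀ (k : Fin 3) j, (![P x x, P x z, P z z] k).1 j =
        w1 x.1 (x.2 j) - k / 2 * (w1 x.1 (x.2 j) - w1 z.1 (z.2 j)) := fun k j => by
      fin_cases k <;> simp [P, Ψ] <;> ring
    simp only [this, sub_sub_sub_cancel_left, ← sub_mul, mul_pow, ← mul_sum, h]
    ring
  have hE : ∀ v σ, ∃ τ : Perm J1, ∀ j, (P (v, σ) (v, σ)).1 (τ j) = (P (v, 1) (v, 1)).1 j :=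
    fun v σ => ⟨σ⁻¹, fun j => by simp [P, Ψ]⟩
  refine three ⟨fun _ => ⟨1, fun _ => rfl⟩, fun ⟨σ, h⟩ => ⟨σ⁻¹, fun j => by simpa using (h (σ⁻¹ j)).symm⟩,
    fun ⟨σ, h⟩ ⟨τ, h'⟩ => ⟨σ * τ, fun j => (h (τ j)).trans (h' j)⟩⟩
    (RI.words (Subtype.val : Set.range Ψ → _)) (by simp)
    (fun v a => ∃ σ : Perm J0, a = P (v, σ.sumCongr 1) (v, σ.sumCongr 1)) (fun v => P (v, 1) (v, 1))
    (fun v => ⟨1, by simp⟩) (fun v a ⟨σ, h⟩ => h ▸ hE v _) (fun φ => ?_) fun v κ => ?_
  · obtain ⟨a, b, c, h1, h2, h3, h4⟩ := net1 φ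
    obtain ⟨n1, n2, n3, n4⟩ := net0 a b c h1 h2 h3
    obtain ⟨σ, n1⟩ := ms_perm n1
    obtain ⟨τ, n2⟩ := ms_perm n2
    refine ⟨![a, b, c], _, hL (a, σ.sumCongr 1) (c, τ.sumCongr 1) ?_, fun k => ?_, h4⟩
    · simp only [Fintype.sum_sum_type, w1, Perm.sumCongr_apply, Sum.map_inl, Sum.map_inr,
        Sum.elim_inl, Sum.elim_inr, ← n1, ← n2, sub_self]
      simpa using congrArg (Int.cast : ℤ → ℝ) n4
    · fin_cases k
      · exact ⟨σ, rfl⟩
      · refine ⟨1, Subtype.ext (funext fun j => ?_)⟩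
        rcases j with j | j
        · have := congrArg (Int.cast : ℤ → ℝ) (n3 j)
          simp [P, Ψ, w1, ← n1, ← n2] at this ⊢
          linarith
        · simp [P, Ψ, w1]
      · exact ⟨τ, rfl⟩
  refine or_iff_not_imp_left.2 fun hn q => ?_
  obtain ⟨σ, i, j, hij, hκ⟩ : ∃ (σ : Perm J0) (i j : J0), i ≠ j ∧
      κ (P (v, σ.sumCongr 1) (v, σ.sumCongr 1)) ≠
      κ (P (v, (σ * swap i j).sumCongr 1) (v, (σ * swap i j).sumCongr 1)) := by
    by_contra! c
    have : ∀ σ : Perm J0, κ (P (v, σ.sumCongr 1) (v, σ.sumCongr 1)) =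
        κ (P (v, Perm.sumCongr 1 1) (v, Perm.sumCongr 1 1)) := fun σ =>
      σ.swap_induction_on' rfl fun f x y h ih => (c f x y h).symm.trans ih
    exact hn fun _ _ ⟨σ, p⟩ ⟨τ, q⟩ => by rw [p, q, this, this τ]
  let ι : Bool ⊕ Fin 5 ↪ J1 := ⟨Sum.map (fun s => bif s then j else i) fun t => ((v, σ i, σ j), t),
    Sum.map_injective.2 ⟨fun a b h => by cases a <;> cases b <;> simp_all, fun a b h => by simpa using h⟩⟩
  let x : Perm (Bool ⊕ Fin 5) → Fin 13 × Perm J1 := fun α => (v, σ.sumCongr 1 * α.viaEmbedding ι)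
  let s : Bool → Perm (Bool ⊕ Fin 5) := fun e => bif e then swap (.inl false) (.inl true) else 1
  have x0 : x (s false) = (v, σ.sumCongr 1) := by
    simp only [x, s, cond_false, ← Perm.viaEmbeddingHom_apply, map_one, mul_one]
  have x1 : x (s true) = (v, (σ * swap i j).sumCongr 1) := by
    rw [← mul_one (1 : Perm (_ × Fin 5)), ← Perm.sumCongr_mul, Perm.sumCongr_swap_one]
    refine congrArg (fun y => (v, σ.sumCongr 1 * y)) (Equiv.ext fun c => ?_)
    by_cases h : c ∈ Set.range ι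
    · obtain ⟨c, rfl⟩ := h
      rw [Perm.viaEmbedding_apply]
      exact (ι.injective.swap_apply ..).symm
    · rw [Perm.viaEmbedding_apply_of_notMem _ _ _ h, swap_apply_of_ne_of_ne]
      exacts [fun e => h ⟨.inl false, e.symm⟩, fun e => h ⟨.inl true, e.symm⟩]
  rw [← x0, ← x1] at hκ
  have b : ((w0 v (σ i) : ℝ) - w0 v (σ j)) ^ 2 ≤ 36 := by
    exact_mod_cast (by decide +kernel : ∀ v a b, (w0 v a - w0 v b) ^ 2 ≤ 36) v (σ i) (σ j)
  have hx : ∀ α β, ∑ j, (w1 (x α).1 ((x α).2 j) - w1 (x β).1 ((x β).2 j)) ^ 2 = _ := fun α β =>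
    sum_via ι (fun c => w1 v (σ.sumCongr 1 c)) α β
  let t : Perm (Bool ⊕ Fin 5) := swap (.inr 2) (.inr 3)
  have h1 : ∀ e, ∑ j, (w1 (x (s e)).1 ((x (s e)).2 j) -
      w1 (x (s (!e) * t)).1 ((x (s (!e) * t)).2 j)) ^ 2 = 384 := fun e => by
    rw [hx]
    cases e <;> simp [s, t, ι, w1, Fin.sum_univ_five, swap_apply_def] <;>
      rw [Real.sq_sqrt (by linarith)] <;> ring
  have h2 : P (x (s false)) (x (s true * t)) = P (x (s true)) (x (s false * t)) := by
    refine Subtype.ext (funext fun c => ?_)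
    simp only [P, Ψ, x, Perm.mul_apply]
    by_cases h : c ∈ Set.range ι
    · obtain ⟨c, rfl⟩ := h
      simp only [Perm.viaEmbedding_apply]
      rcases (by decide : ∀ c, (s false c = s true c ∧ s true (t c) = s false (t c)) ∨
        (s false (t c) = s false c ∧ s true (t c) = s true c)) c with h | h <;>
      simp only [Perm.mul_apply, h.1, h.2]
      rw [add_comm]
    · simp only [Perm.viaEmbedding_apply_of_notMem _ _ _ h]
  fin_cases q
  · exact ⟨fun e => _, fun e => ⟨hL _ _ (h1 e), hE .., hE ..⟩, hκ, h2⟩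
  · refine ⟨fun e => _, fun e => ⟨hL (x (s (!e) * t)) (x (s e)) ?_, hE .., hE ..⟩, hκ, ?_⟩
    · exact (sum_congr rfl fun j _ => sub_sq_comm _ _).trans (h1 e)
    · exact Subtype.ext (funext fun c => (congrArg (· / 2) (add_comm _ _)).trans
        ((congrFun (congrArg Subtype.val h2) c).trans (congrArg (· / 2) (add_comm _ _))))
  · let y : Bool ⊕ Fin 5 → Bool ⊕ Fin 5 → Perm (Bool ⊕ Fin 5) := Equiv.swap
    let u := y (.inl false) (.inr 0) * (y (.inl true) (.inr 1) * y (.inr 2) (.inr 4))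
    refine ⟨fun e => _, fun e => ⟨hL (x (s e)) (x u) ?_, hE .., hE ..⟩, hκ, Eq.refl (P (x u) (x u))⟩
    rw [hx]
    cases e <;> simp [s, u, y, ι, w1, Fin.sum_univ_five, swap_apply_def] <;>
      rw [Real.sq_sqrt (by linarith)] <;> ring

end Pool.Agent.H.BS
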