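import Pool.Agent.H.BS.A

set_option autoImplicit false

namespace Pool.Agent.H.BS

open Equiv

variable {A : Type}

/-- every colouring has a copy with blocks of size `d` on which related words get equal colours -/
def Rd (d : ℕ) (L : Type) [Fintype L] (R : (L → A) → (L → A) → Prop) : Prop :=
  ∀ (C : Type) [Finite C], ∃ (N : Type) (_ : Fintype N), ∀ c : (N → A) → C, ∃ h : N → L ⊕ A,
    (∀ φ, sm h φ = d * ∑ l, φ l) ∧ ∀ x y, R x y → c (ev h x) = c (ev h y)

lemma Rd.sub {d d' : ℕ} {L L' : Type} [Fintype L] [Fintype L'] {R : (L → A) → (L → A) → Prop}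
    {R' : (L' → A) → (L' → A) → Prop} (h : Rd d L R) (G : L → L' ⊕ A)
    (h1 : ∀ φ, sm G φ = d' * ∑ l, φ l) (h2 : ∀ x y, R' x y → R (ev G x) (ev G y)) :
    Rd (d * d') L' R' := fun C _ => by
  obtain ⟨N, _, hN⟩ := h C
  refine ⟨N, inferInstance, fun c => ?_⟩
  obtain ⟨g, a, b⟩ := hN c
  exact ⟨comp g G, fun φ => by rw [sm_comp, a, mul_assoc, ← h1]; rfl,
    fun x y r => by rw [ev_comp, ev_comp]; exact b _ _ (h2 x y r)⟩

lemma Rd.prod [Finite A] {d : ℕ} {L L' : Type} [Fintype L] [Fintype L']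
    {R : (L → A) → (L → A) → Prop} {R' : (L' → A) → (L' → A) → Prop} (h : Rd d L R)
    (h' : Rd d L' R') :
    Rd d (L ⊕ L') fun x y => R (x ∘ .inl) (y ∘ .inl) ∧ R' (x ∘ .inr) (y ∘ .inr) := fun C _ => by
  obtain ⟨N, _, hN⟩ := h ((L' → A) → C)
  obtain ⟨M, _, hM⟩ := h' ((N → A) → C)
  refine ⟨N ⊕ M, inferInstance, fun c => ?_⟩
  obtain ⟨g', a', b'⟩ := hM fun v u => c (Sum.elim u v)
  obtain ⟨g, a, b⟩ := hN fun u y => c (Sum.elim u (ev g' y))
  have e : ∀ x : L ⊕ L' → A, ev (Sum.elim (comp g fun l => .inl (.inl l)) (comp g' fun l => .inl (.inr l))) x =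
      Sum.elim (ev g (x ∘ .inl)) (ev g' (x ∘ .inr)) := fun x => by
    ext (i | i)
    · exact congrFun (ev_comp g _ x) i
    · exact congrFun (ev_comp g' _ x) i
  refine ⟨Sum.elim (comp g fun l => .inl (.inl l)) (comp g' fun l => .inl (.inr l)), fun φ => ?_,
    fun x y r => ?_⟩
  · have h1 := (sm_comp g (fun l => .inl (.inl l)) φ).trans (a _)
    have h2 := (sm_comp g' (fun l => .inl (.inr l)) φ).trans (a' _)
    simp only [sm, Fintype.sum_sum_type, Sum.elim_inl, Sum.elim_inr, mul_add] at h1 h2 ⊢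
    rw [h1, h2]
  · rw [e, e]
    exact (congrFun (b _ _ r.1) _).trans (congrFun (b' _ _ r.2) _)

lemma Rd.pow [Finite A] {d : ℕ} {L : Type} [Fintype L] {R : (L → A) → (L → A) → Prop}
    (h : Rd d L R) (n : ℕ) : Rd d (Fin n × L) fun x y => ∀ s, R (lt x s) (lt y s) := by
  induction n with
  | zero =>
    exact fun C _ => ⟨Empty, inferInstance, fun c => ⟨Empty.elim, by simp [sm], fun _ _ _ => by
      congr 1; exact Subsingleton.elim _ _⟩⟩
  | succ n ih =>
    have := (h.prod ih).sub (d' := 1) (L' := Fin (n + 1) × L)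
      (R' := fun x y => ∀ s, R (lt x s) (lt y s))
      (Sum.elim (fun l => .inl (0, l)) fun p => .inl (p.1.succ, p.2))
      (fun φ => by simp [sm, Fintype.sum_prod_type, Fin.sum_univ_succ])
      fun x y r => ⟨r 0, fun s => r s.succ⟩
    rwa [mul_one] at this

lemma Rd.swap [Finite A] {d : ℕ} {L : Type} [Fintype L] {R : (L → A) → (L → A) → Prop}
    (h : Rd d L R) (b : Perm L) (hb : ∀ l, b (b l) = l) (r : ∀ x, R x x)
    (rb : ∀ x y, R x y → R (x ∘ b) (y ∘ b)) (z : L → A) :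
    Rd (d * 2) L fun x y => R x y ∨ ((x = z ∨ x ∘ b = z) ∧ y = x ∘ b) := fun C _ => by
  classical
  have _ := Fintype.ofFinite C
  obtain ⟨N, _, hN⟩ := h.pow (Fintype.card C + 1) C
  refine ⟨N, inferInstance, fun c => ?_⟩
  obtain ⟨g, a1, a2⟩ := hN c
  obtain ⟨i, j, hij, e⟩ := Fintype.exists_ne_map_eq_of_card_lt (fun i : Fin (Fintype.card C + 1) =>
    c (ev g fun p => if p.1 = i then z (b p.2) else z p.2)) (by simp)
  let G : Fin (Fintype.card C + 1) × L → L ⊕ A := fun p =>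
    if p.1 = i then .inl p.2 else if p.1 = j then .inl (b p.2) else .inr (z p.2)
  have e1 : ev G z = fun p => if p.1 = j then z (b p.2) else z p.2 := by
    ext p; by_cases c : p.1 = i <;> by_cases c' : p.1 = j <;> simp_all [ev, G]
  have e2 : ev G (z ∘ b) = fun p => if p.1 = i then z (b p.2) else z p.2 := by
    ext p; by_cases c : p.1 = i <;> by_cases c' : p.1 = j <;> simp_all [ev, G]
  refine ⟨comp g G, fun φ => ?_, fun x y p => ?_⟩
  · rw [sm_comp, a1, mul_assoc, Fintype.sum_prod_type,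
      ← Finset.sum_subset (Finset.subset_univ {i, j}), Finset.sum_pair hij]
    · simp [G, hij.symm, Equiv.sum_comp b φ, two_mul]
    · intro k _ hk
      simp only [Finset.mem_insert, Finset.mem_singleton, not_or] at hk
      simp [G, hk]
  · rw [ev_comp, ev_comp]
    rcases p with p | ⟨rfl | rfl, rfl⟩
    · refine a2 _ _ fun s => ?_
      by_cases c : s = i
      · convert p using 1 <;> ext l <;> simp [lt, ev, G, c]
      by_cases c' : s = j
      · convert rb _ _ p using 1 <;> ext l <;> simp [lt, ev, G, c', hij.symm]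
      · convert r z using 1 <;> ext l <;> simp [lt, ev, G, c, c']
    · rw [e1, e2, e]
    · have : x = (x ∘ b) ∘ b := by ext l; simp [hb]
      rw [e1]
      conv_lhs => rw [this, e2]
      exact e

lemma Rd.pair [Finite A] (L : Type) [Fintype L] (R : (L → A) → (L → A) → Prop) (e : Equivalence R)
    (h : ∃ d, 0 < d ∧ Rd d L R) : ∃ d, 0 < d ∧ Rd d (Bool × L) (Pr R) := by
  classical
  obtain ⟨d, hd, h⟩ := h
  let b : Perm (Bool × L) := Equiv.prodCongr Equiv.boolNot (Equiv.refl L)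
  have hb : ∀ l, b (b l) = l := by simp [b]
  have : ∀ T : Finset (Bool × L → A), ∃ d, 0 < d ∧ Rd d (Bool × L) fun x y =>
      (∀ s, R (lt x s) (lt y s)) ∨ ((x ∈ T ∨ x ∘ b ∈ T) ∧ y = x ∘ b) := fun T => by
    induction T using Finset.induction_on with
    | empty =>
      exact ⟨_, mul_pos hd one_pos, (h.prod h).sub
        (Sum.elim (fun l => .inl (true, l)) fun l => .inl (false, l))
        (fun φ => by simp [sm, Fintype.sum_prod_type])
        fun x y r => by
          have r : ∀ s, R (lt x s) (lt y s) := by simpa using r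
          exact ⟨r true, r false⟩⟩
    | insert z T _ ih =>
      obtain ⟨d, hd, ih⟩ := ih
      refine ⟨_, mul_pos (mul_pos hd two_pos) one_pos, (ih.swap b hb (fun x => .inl fun s => e.refl _)
        (fun x y p => p.imp (fun p s => p (!s)) fun p => ⟨?_, by rw [p.2]⟩) z).sub .inl
        (fun φ => by simp [sm]) fun x y r => ?_⟩
      · rw [show (x ∘ b) ∘ b = x by ext l; simp [hb]]; exact p.1.symm
      · simp only [Finset.mem_insert] at r
        change (_ ∨ (x ∈ T ∨ x ∘ b ∈ T) ∧ y = x ∘ b) ∨ (x = z ∨ x ∘ b = z) ∧ y = x ∘ b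
        tauto
  have _ := Fintype.ofFinite A
  obtain ⟨d, hd, h⟩ := this Finset.univ
  refine ⟨d, hd, fun C _ => ?_⟩
  obtain ⟨N, _, hN⟩ := h C
  refine ⟨N, inferInstance, fun c => ?_⟩
  obtain ⟨g, a1, a2⟩ := hN c
  refine ⟨g, a1, fun x y ⟨s, p⟩ => ?_⟩
  cases s
  · exact a2 _ _ (.inl (by simpa using p))
  · exact (a2 x (x ∘ b) (.inr (by simp))).trans (a2 _ _ (.inl fun s => by
      have := p (!s)
      rwa [show xor true (!s) = s by simp] at this))

theorem block [Finite A] (J : Type) [Fintype J] [DecidableEq J] :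
    ∃ d, 0 < d ∧ Rd d J fun x y : J → A => ∃ σ : Perm J, y = x ∘ σ := by
  obtain ⟨L', _, R', g, n, -, ⟨d, hd, h⟩, hb, ⟨s, hs⟩, hg⟩ :=
    full (A := A) (Φ := fun L _ R => ∃ d, 0 < d ∧ Rd d L R) Rd.pair (Perm J) J Eq eq_equivalence
      ⟨1, one_pos, fun C _ => ⟨J, inferInstance, fun c => ⟨.inl, by simp [sm], by simp⟩⟩⟩
  refine ⟨d * ∑ s, n s, mul_pos hd (Finset.sum_pos' (fun _ _ => Nat.zero_le _) ⟨s, by simp, hs⟩),
    h.sub (comp g fun p => .inl (p.1 p.2)) (fun φ => ?_) ?_⟩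
  · rw [sm_comp, hb, Finset.sum_mul]
    exact Finset.sum_congr rfl fun τ _ => congrArg _ (Equiv.sum_comp τ φ)
  · rintro x _ ⟨σ, rfl⟩
    rw [ev_comp, ev_comp]
    exact hg _ _ (Equiv.mulLeft σ⁻¹) fun τ => by ext l; simp [lt, ev]

/-- the block sets conjecture, with block size depending only on the alphabet and the length -/
theorem blocks (m l : ℕ) (hm : 0 < m) : ∃ d, 0 < d ∧ ∀ k, ∃ n, 0 < n ∧ ∀ c : (Fin n → Fin m) → Fin k,
    ∃ (I : Fin l → Finset (Fin n)) (a : Fin n → Fin m), (∀ j, (I j).card = d) ∧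
      (Pairwise fun j j' => Disjoint (I j) (I j')) ∧ ∀ T : Fin l → Fin m, ∃ col, ∀ w : Fin n → Fin m,
        ((∀ i, (∀ j, i ∉ I j) → w i = a i) ∧
          ∃ σ : Perm (Fin l), ∀ j, ∀ i ∈ I j, w i = T (σ j)) → c w = col := by
  classical
  obtain ⟨d, hd, h⟩ := block (A := Fin m) (Fin l)
  refine ⟨d, hd, fun k => ?_⟩
  obtain ⟨N, _, hN⟩ := h (Fin k)
  let e : Option N ≃ Fin (Fintype.card (Option N)) := Fintype.equivFin _
  refine ⟨_, Fintype.card_pos (α := Option N), fun c => ?_⟩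
  obtain ⟨g, a1, a2⟩ := hN fun u => c fun i => (e.symm i).elim ⟨0, hm⟩ u
  let g' : Fin (Fintype.card (Option N)) → Fin l ⊕ Fin m := fun i => (e.symm i).elim (.inr ⟨0, hm⟩) g
  refine ⟨fun j => Finset.univ.filter fun i => g' i = .inl j, ev g' fun _ => ⟨0, hm⟩, fun j => ?_,
    fun j j' hj => Finset.disjoint_filter.2 fun i _ p q => hj (Sum.inl.inj (p.symm.trans q)),
    fun T => ⟨_, fun w ⟨p, σ, q⟩ => Eq.trans (congrArg c ?_) (a2 T _ ⟨σ, rfl⟩).symm⟩⟩
  · have := a1 (Pi.single j 1)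
    rw [Finset.sum_pi_single', if_pos (Finset.mem_univ _), mul_one] at this
    rw [← this, Finset.card_filter, ← e.sum_comp, Fintype.sum_option]
    simp only [g', e.symm_apply_apply, Option.elim, sm]
    rw [if_neg (by simp), zero_add]
    refine Finset.sum_congr rfl fun i _ => ?_
    cases g i <;> simp [Pi.single_apply]
  · ext1 i
    have : (e.symm i).elim ⟨0, hm⟩ (ev g (T ∘ σ)) = ev g' (T ∘ σ) i := by
      simp only [ev, g']; cases e.symm i <;> rfl
    rw [this]
    rcases hi : g' i with j | x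
    · rw [q j i (by simpa using hi)]; simp [ev, hi]
    · rw [p i (by simp [hi])]; simp [ev, hi]

end Pool.Agent.H.BS
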